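import Pool.Agent.Q18.OR.Sum
import Pool.Agent.Q18.K.EqB
import Pool.Agent.Y63.NV.FinL286
import Pool.Agent.Y809.NV.ClifL

/-!
# Blocks and the central elements with support in `K`
-/

open scoped BigOperators Classical

set_option linter.unusedSectionVars false

noncomputable section

namespace Pool.Agent.Q18.OR

open Pool.Agent.Q18.K
open Pool.Agent.Helper884.IC (IsIrrChar irr_finite)
open Pool.Agent.Y63.NV (redC centralValue IsClassFun IsBlock cut InZ)
open Pool.Agent.Y63.NV.B286 (cosf cp cp_class cp_supp block_cp)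
open Pool.Agent.Y63.KR
open Pool.Agent.Y63.AWC (irr_comp mult St_eq)
open Pool.Agent.Y286.NV (centralValue_comp irr_class)
open Pool.Agent.Y930.NV

section ext

variable {Γ : Type} [Group Γ] [Finite Γ] {F : Type} [Field F]

/-- one step: the elements supported on a central extension of `K` -/
theorem ext_step (p : ℕ) [Fact p.Prime] [CharP F p] {K K' : Subgroup Γ} [K.Normal]
    (hp : IsPGroup p (Γ ⧸ K))
    (hc : ∀ x ∈ K', ∀ g : Γ, (g : Γ ⧸ K) * x = x * g)
    {B B' : (Γ → F) → F} (hB : IsBlock B) (hB' : IsBlock B')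
    (h : ∀ z : Γ → F, InZ K z → B z = B' z) (f : Γ → F) (hf : InZ K' f) : B f = B' f := by
  have : Fintype (Γ ⧸ K) := Fintype.ofFinite _
  obtain ⟨n, hn⟩ := IsPGroup.iff_card.1 hp
  have hcl : ∀ q : Γ ⧸ K, IsClassFun (cosf K f q) := by
    intro q g x
    unfold cosf
    have hfx : f (g * x * g⁻¹) = f x := hf.conj g x
    by_cases hx : x ∈ K'
    · have h1 : ((g * x * g⁻¹ : Γ) : Γ ⧸ K) = x := by
        rw [QuotientGroup.mk_mul, QuotientGroup.mk_mul, QuotientGroup.mk_inv, hc x hx,
          mul_inv_cancel_right]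
      rw [hfx, h1]
    · have h2 : f x = 0 := hf.supp x hx
      rw [hfx, h2]
      split_ifs <;> rfl
  have h1 : ∀ q, B (cosf K f q) = B' (cosf K f q) := by
    intro q
    have hz : InZ K (cp (cosf K f q) (p ^ n)) := by
      refine ⟨fun g x => cp_class (hcl q) _ g x, fun x hx => cp_supp (G := K) (q := q) ?_ _ x ?_⟩
      · intro y hy
        exact if_neg hy
      · intro h2
        apply hx
        have h3 : q ^ p ^ n = 1 := by rw [← hn, pow_card_eq_one']
        rw [h3] at h2
        exact (QuotientGroup.eq_one_iff x).mp h2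
    have h3 := h _ hz
    rw [block_cp hB (hcl q), block_cp hB' (hcl q)] at h3
    have h4 := iterateFrobenius_inj F p n
    apply h4
    rw [iterateFrobenius_def, iterateFrobenius_def, h3]
  have hz0 : ∀ {C : (Γ → F) → F}, IsBlock C → C 0 = 0 := by
    intro C hC
    have := hC.smul 0 (0 : Γ → F) (fun _ _ => rfl)
    rwa [zero_smul, zero_mul] at this
  have h2 : ∀ s : Finset (Γ ⧸ K), IsClassFun (∑ q ∈ s, cosf K f q) ∧
      B (∑ q ∈ s, cosf K f q) = B' (∑ q ∈ s, cosf K f q) := by
    intro s
    induction s using Finset.induction_on with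
    | empty =>
      rw [Finset.sum_empty, hz0 hB, hz0 hB']
      exact ⟨fun _ _ => rfl, rfl⟩
    | insert q s hq ih =>
      rw [Finset.sum_insert hq]
      have hc := hcl q
      refine ⟨fun g x => ?_, ?_⟩
      · rw [Pi.add_apply, Pi.add_apply, hc, ih.1]
      · rw [hB.add _ _ hc ih.1, hB'.add _ _ hc ih.1, h1, ih.2]
  have h3 : ∑ q, cosf K f q = f := by
    funext x
    rw [Finset.sum_apply, Finset.sum_eq_single (x : Γ ⧸ K)]
    · exact if_pos rfl
    · intro q _ hq
      exact if_neg fun h => hq h.symm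
    · intro h
      exact absurd (Finset.mem_univ _) h
  rw [← h3]
  exact (h2 Finset.univ).2

/-- **blocks of `Γ` which agree on the central elements supported on `K` are equal**, for `Γ/K` a
`p`-group -/
theorem blk_ext (p : ℕ) [Fact p.Prime] [CharP F p] : ∀ (n : ℕ) (K : Subgroup Γ) [K.Normal],
    K.index ≤ n → IsPGroup p (Γ ⧸ K) → ∀ {B B' : (Γ → F) → F}, IsBlock B → IsBlock B' →
    (∀ z : Γ → F, InZ K z → B z = B' z) → ∀ f : Γ → F, IsClassFun f → B f = B' f := by
  intro n
  induction n with
  | zero =>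
    intro K _ hn
    have h0 : K.index ≠ 0 := Subgroup.index_ne_zero_of_finite
    omega
  | succ n ih =>
    intro K hK hn hp B B' hB hB' h f hf
    by_cases hT : K = ⊤
    · subst hT
      exact h f ⟨hf, fun x hx => absurd (Subgroup.mem_top x) hx⟩
    · have hnt : Nontrivial (Γ ⧸ K) := by
        by_contra hcon
        rw [not_nontrivial_iff_subsingleton] at hcon
        apply hT
        rw [eq_top_iff]
        intro x _
        rw [← QuotientGroup.eq_one_iff x]
        exact Subsingleton.elim _ _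
      have hctr : Nontrivial (Subgroup.center (Γ ⧸ K)) := hp.center_nontrivial
      set K' := (Subgroup.center (Γ ⧸ K)).comap (QuotientGroup.mk' K) with hK'
      have hK'n : K'.Normal := Subgroup.Normal.comap inferInstance _
      have hKK' : K ≤ K' := by
        intro x hx
        rw [hK', Subgroup.mem_comap, QuotientGroup.mk'_apply,
          (QuotientGroup.eq_one_iff x).2 hx]
        exact one_mem _
      have hlt : K < K' := by
        refine lt_of_le_of_ne hKK' ?_
        intro he
        obtain ⟨c, hc⟩ := exists_ne (1 : Subgroup.center (Γ ⧸ K))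
        obtain ⟨x, hx⟩ := QuotientGroup.mk_surjective (c : Γ ⧸ K)
        apply hc
        apply Subtype.ext
        change (c : Γ ⧸ K) = 1
        rw [← hx, QuotientGroup.eq_one_iff, he, hK', Subgroup.mem_comap, QuotientGroup.mk'_apply,
          hx]
        exact c.2
      have hidx : K'.index ≤ n := by
        have h1 : K'.index < K.index := Subgroup.index_strictAnti hlt
        omega
      have hp' : IsPGroup p (Γ ⧸ K') := by
        intro x
        obtain ⟨g, rfl⟩ := QuotientGroup.mk_surjective x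
        obtain ⟨k, hk⟩ := hp (g : Γ ⧸ K)
        refine ⟨k, ?_⟩
        rw [← QuotientGroup.mk_pow, QuotientGroup.eq_one_iff] at hk ⊢
        exact hKK' hk
      refine ih K' hidx hp' hB hB' (fun z hz => ?_) f hf
      refine ext_step p hp (fun x hx g => ?_) hB hB' h z hz
      have h2 : (x : Γ ⧸ K) ∈ Subgroup.center (Γ ⧸ K) := hx
      exact (Subgroup.mem_center_iff.1 h2 g)

end ext

section

variable {Γ : Type} [Group Γ] [Finite Γ] {K H : Subgroup Γ} [hK : K.Normal]

/-- a character of `H` over a character of `H ⊓ K` -/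
theorem exists_over {θ : ↥(H ⊓ K) → ℂ} (hθ : IsIrrChar θ) : ∃ χ : H → ℂ, IsIrrChar χ ∧
    ∀ (F : Type) [Field F] (red : integralClosure ℤ ℂ →+* F) (z : Γ → F), InZ K z →
      centralValue red χ (fun x => z x) = centralValue red θ (fun x => z x) := by
  have : Fintype H := Fintype.ofFinite H
  have : Fintype ↥(H ⊓ K) := Fintype.ofFinite _
  have hn : (K.subgroupOf H).Normal := inferInstance
  have : Fintype (K.subgroupOf H) := Fintype.ofFinite _
  let e : ↥(K.subgroupOf H) ≃* ↥(H ⊓ K) :=
    { toFun := fun x => ⟨x.1.1, x.1.2, x.2⟩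
      invFun := fun x => ⟨⟨x.1, x.2.1⟩, x.2.2⟩
      left_inv := fun _ => rfl
      right_inv := fun _ => rfl
      map_mul' := fun _ _ => rfl }
  have hθ' : IsIrrChar (fun x => θ (e x)) := irr_comp e hθ
  have h1 := St_eq (K.subgroupOf H) hθ'
  have h2 : ∃ χ ∈ Pool.Agent.Helper884.IC.Irr H, mult (K.subgroupOf H) χ (fun x => θ (e x)) ≠ 0 := by
    by_contra hcon
    push Not at hcon
    rw [Finset.sum_eq_zero (fun χ hχ => by rw [hcon χ hχ]; rfl), mul_zero] at h1
    exact Nat.card_pos.ne' h1
  obtain ⟨χ, hχ, hm⟩ := h2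
  have hχ' : IsIrrChar χ := Pool.Agent.Helper884.IC.mem_Irr.mp hχ
  refine ⟨χ, hχ', fun F _ red z hz => ?_⟩
  have h3 := Pool.Agent.Y809.NV.cv_eq (K.subgroupOf H) red hχ' hθ' hm
    (z := fun x : H => z x) ⟨fun g x => hz.conj g x, fun x hx => hz.supp x hx⟩
  rw [h3]
  have h4 := centralValue_comp red e θ (irr_class hθ) (fun x : ↥(H ⊓ K) => z x)
    (fun a x => hz.conj a x)
  rw [← h4]
  rfl

/-- the functions supported on `K` -/
def SK (K : Subgroup Γ) (F : Type) [Field F] [Fintype Γ] : Submonoid (CR Γ F) where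
  carrier := {f | ∀ x, x ∉ K → f.1 x = 0}
  one_mem' := by
    intro x hx
    change (Pi.single 1 1 : Γ → F) x = 0
    rw [Pi.single_eq_of_ne]
    rintro rfl
    exact hx K.one_mem
  mul_mem' := by
    intro f g hf hg x hx
    change cv f.1 g.1 x = 0
    unfold cv
    refine Finset.sum_eq_zero fun y _ => ?_
    by_cases hy : y ∈ K
    · rw [hg (y⁻¹ * x) fun h => hx (by
        have h1 := K.mul_mem hy h
        rwa [mul_inv_cancel_left] at h1), mul_zero]
    · rw [hf y hy, zero_mul]

variable {F : Type} [Field F]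

/-- the norm argument for the functions supported on `K` -/
theorem agree_K (red : integralClosure ℤ ℂ →+* F) (V : GU Γ)
    (hred : ∀ (u : V.U) (ζ : ℂ), ζ ^ Nat.card Γ = 1 → redC red (V.s u ζ) = redC red ζ)
    {N : Subgroup Γ} {χ : N → ℂ} (hχ : IsIrrChar χ)
    (hL : IsBlock (fun f : Γ → F => centralValue red χ (fun x => f x)))
    {B : (Γ → F) → F} (hB : IsBlock B)
    (h : ∀ z ∈ CU V F, InZ K z → centralValue red χ (fun x => z x) = B z) (f : Γ → F)
    (hf : InZ K f) : centralValue red χ (fun x => f x) = B f := by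
  have : Fintype Γ := Fintype.ofFinite Γ
  have : Fintype N := Fintype.ofFinite N
  have hU : Finite V.U := by
    have := ne0 (Γ := Γ)
    infer_instance
  refine norm_arg' ((pw (Γ := Γ) (J := Γ) xn).comp V.U.subtype) (fun u => gp_pw V xn u) hL hB
    (SK K F) ?_ ?_ ?_ ?_ ⟨f, fun g x => hf.conj g x⟩ (fun x hx => hf.supp x hx)
  · intro f f' k hfS hff x hx
    rw [hff, hfS x hx, if_neg, mul_zero, add_zero]
    rintro rfl
    exact hx K.one_mem
  · intro u f hfS x hx
    refine hfS _ fun h1 => hx ?_
    have h2 : (x ^ ex (u : (ZMod (Nat.card Γ))ˣ)) ∈ K := h1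
    exact (pow_mem_iff' (ZMod.val_coe_unit_coprime _) K x).1 h2
  · intro u f hf
    exact cv_pw red V hred (hxn N) hχ u (f := fun x : N => f x) (fun a x => hf a x)
  · intro f hfS hfu
    exact h f.1 ⟨f.2, fun u x => hfu u x⟩ ⟨f.2, hfS⟩

end

end Pool.Agent.Q18.OR
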