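import Mathlib

/-!
# Counting the orbits which are stable under a commuting map
-/

open scoped BigOperators Classical

noncomputable section

namespace Pool.Agent.Q18.OR

variable {H X : Type} [Group H] [MulAction H X]

/-- the points whose orbit is stable under `v` -/
def StX (H : Type) [Group H] {X : Type} [MulAction H X] (v : X → X) : Type :=
  {x : X // v x ∈ MulAction.orbit H x}

/-- the action on the points with a stable orbit -/
@[reducible] def actX {v : X → X} (hv : ∀ (h : H) (x : X), v (h • x) = h • v x) :
    MulAction H (StX H v) where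
  smul h x := ⟨h • x.1, by
    rw [hv]
    obtain ⟨k, hk⟩ := x.2
    refine ⟨h * k * h⁻¹, ?_⟩
    change (h * k * h⁻¹) • (h • x.1) = h • v x.1
    have hk' : k • x.1 = v x.1 := hk
    rw [← hk', smul_smul, smul_smul]
    congr 1
    group⟩
  one_smul x := Subtype.ext (one_smul H x.1)
  mul_smul a b x := Subtype.ext (mul_smul a b x.1)

/-- **Burnside's lemma for the orbits which are stable under a commuting map** -/
theorem orbit_count [Fintype H] [Finite X] {v : X → X}
    (hv : ∀ (h : H) (x : X), v (h • x) = h • v x) :
    ∑ h : H, Nat.card {x : X // h • v x = x} =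
      Nat.card H * Nat.card {O : Set X // ∃ x, O = MulAction.orbit H x ∧ v x ∈ O} := by
  have : Fintype X := Fintype.ofFinite X
  let _ : MulAction H (StX H v) := actX hv
  have : Finite (StX H v) := by unfold StX; infer_instance
  have : Fintype (StX H v) := Fintype.ofFinite _
  have h0 : ∀ (h : H) (x : StX H v), (h • x).1 = h • x.1 := fun _ _ => rfl
  -- Burnside on the stable part
  have h1 := MulAction.sum_card_fixedBy_eq_card_orbits_mul_card_group H (StX H v)
  -- the left-hand side
  have h2 : ∀ h : H, Nat.card {x : X // h • v x = x} =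
      ∑ x : X, if h • v x = x then 1 else 0 := by
    intro h
    rw [Nat.card_eq_fintype_card, Fintype.card_subtype, Finset.card_filter]
  have h3 : ∀ h : H, Fintype.card (MulAction.fixedBy (StX H v) h) =
      ∑ x : StX H v, if h • x = x then 1 else 0 := by
    intro h
    rw [← Finset.card_filter, ← Fintype.card_subtype]
    rfl
  have h4 : ∀ x : X, (∑ h : H, if h • v x = x then 1 else 0) =
      if v x ∈ MulAction.orbit H x then Nat.card (MulAction.stabilizer H x) else 0 := by
    intro x
    rw [← Finset.card_filter, ← Fintype.card_subtype, ← Nat.card_eq_fintype_card]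
    by_cases hx : v x ∈ MulAction.orbit H x
    · rw [if_pos hx]
      obtain ⟨k, hk⟩ := hx
      have hk' : k • x = v x := hk
      refine Nat.card_congr
        { toFun := fun h => ⟨h.1 * k, ?_⟩
          invFun := fun h => ⟨h.1 * k⁻¹, ?_⟩
          left_inv := fun h => Subtype.ext (by change h.1 * k * k⁻¹ = h.1; group)
          right_inv := fun h => Subtype.ext (by change h.1 * k⁻¹ * k = h.1; group) }
      · rw [MulAction.mem_stabilizer_iff, mul_smul, hk']
        exact h.2
      · rw [← hk', smul_smul, inv_mul_cancel_right]
        exact h.2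
    · rw [if_neg hx]
      have : IsEmpty {h : H // h • v x = x} := ⟨fun h => hx ⟨h.1⁻¹, by
        change h.1⁻¹ • x = v x
        rw [inv_smul_eq_iff]
        exact h.2.symm⟩⟩
      exact Nat.card_of_isEmpty
  have h5 : ∀ x : StX H v, (∑ h : H, if h • x = x then 1 else 0) =
      Nat.card (MulAction.stabilizer H x.1) := by
    intro x
    rw [← Finset.card_filter, ← Fintype.card_subtype, ← Nat.card_eq_fintype_card]
    refine Nat.card_congr (Equiv.subtypeEquivRight fun h => ?_)
    rw [MulAction.mem_stabilizer_iff, ← h0]
    exact Subtype.ext_iff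
  rw [Finset.sum_congr rfl fun h _ => h2 h, Finset.sum_comm, Finset.sum_congr rfl fun x _ => h4 x]
  rw [Finset.sum_congr rfl fun h _ => h3 h, Finset.sum_comm,
    Finset.sum_congr rfl fun x _ => h5 x] at h1
  have h6 : ∑ x : StX H v, Nat.card (MulAction.stabilizer H x.1) =
      ∑ x : X, if v x ∈ MulAction.orbit H x then Nat.card (MulAction.stabilizer H x) else 0 := by
    rw [← Finset.sum_filter]
    have h7 := Finset.sum_subtype (F := (inferInstance : Fintype (StX H v))) (p := fun x : X => v x ∈ MulAction.orbit H x)
      (Finset.univ.filter (fun x : X => v x ∈ MulAction.orbit H x))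
      (fun x => by rw [Finset.mem_filter]; exact and_iff_right (Finset.mem_univ x))
      (fun x => Nat.card (MulAction.stabilizer H x))
    rw [h7]
    rfl
  rw [← h6, h1, mul_comm, Nat.card_eq_fintype_card (α := H), ← Nat.card_eq_fintype_card
    (α := MulAction.orbitRel.Quotient H (StX H v))]
  congr 1
  refine Nat.card_congr (Equiv.ofBijective (fun q : MulAction.orbitRel.Quotient H (StX H v) =>
    Quotient.liftOn' q (fun x => (⟨MulAction.orbit H x.1, x.1, rfl, x.2⟩ :
      {O : Set X // ∃ x, O = MulAction.orbit H x ∧ v x ∈ O})) ?_) ⟨?_, ?_⟩)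
  · intro a b hab
    obtain ⟨g, hg⟩ := hab
    apply Subtype.ext
    have hg' : g • b.1 = a.1 := congrArg Subtype.val hg
    change MulAction.orbit H a.1 = MulAction.orbit H b.1
    rw [← hg', MulAction.orbit_smul]
  · intro q q' h
    induction q using Quotient.inductionOn' with
    | h a =>
      induction q' using Quotient.inductionOn' with
      | h b =>
        have h8 : MulAction.orbit H a.1 = MulAction.orbit H b.1 := congrArg Subtype.val h
        have h9 : a.1 ∈ MulAction.orbit H b.1 := by
          rw [← h8]
          exact MulAction.mem_orbit_self _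
        obtain ⟨g, hg⟩ := h9
        apply Quotient.sound'
        exact ⟨g, Subtype.ext hg⟩
  · rintro ⟨O, x, rfl, hx⟩
    exact ⟨Quotient.mk'' ⟨x, hx⟩, rfl⟩

/-- the same orbits are stable under maps which generate the same group -/
theorem stable_iter {v : X → X} (hv : ∀ (h : H) (x : X), v (h • x) = h • v x) {x : X}
    (hx : v x ∈ MulAction.orbit H x) (k : ℕ) : v^[k] x ∈ MulAction.orbit H x := by
  induction k with
  | zero => exact MulAction.mem_orbit_self x
  | succ k ih =>
    rw [Function.iterate_succ_apply']
    obtain ⟨g, hg⟩ := ih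
    have hg' : g • x = v^[k] x := hg
    rw [← hg', hv]
    obtain ⟨a, ha⟩ := hx
    have ha' : a • x = v x := ha
    rw [← ha', smul_smul]
    exact MulAction.mem_orbit x _

end Pool.Agent.Q18.OR
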