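import Pool.Agent.Q18.OR.Filt
import Pool.Agent.Q18.K.Fin

/-!
# Alternating sums over chains for the functions with support in `K`
-/

open scoped BigOperators Classical

set_option linter.unusedSectionVars false

noncomputable section

namespace Pool.Agent.Q18.OR

open Pool.Agent.Q18.K
open Pool.Agent.Helper884.IC (IsIrrChar)
open Pool.Agent.Y63.NV (Kop Kfun SA cut redC centralValue IsClassFun IsBlock)
open Pool.Agent.Y85.NV (cj mem_cj SYL exists_syl)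
open Pool.Agent.Y63.KR

section

variable {Γ E : Type} [Group Γ] [Group E] {A : PA Γ E} {M : Subgroup E} {G Z K : Subgroup Γ}
  {p : ℕ} [Finite Γ] {F : Type} [Field F]

/-- the weight function -/
def wK (A : PA Γ E) (p : ℕ) (K : Subgroup Γ) (z : Γ → F) (c : F) (R J : Subgroup Γ)
    (K' : Subgroup E) : ℤ :=
  (Nat.card K' : ℤ) * gE A (cut (cut z J) (Subgroup.centralizer (R : Set Γ)))
    (SA p J R ∩ K) K' c

theorem stK_MC (hK : StK A M K) (σ : Set (Subgroup Γ)) : StK A (MC A M σ) K :=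
  fun m hm => hK m hm.1

/-- only the subgroups of `Z` contribute -/
theorem alt_mainK [Finite E] [Fact p.Prime] [IsAlgClosed F] [CharP F p] (h : Adm A M G)
    (hK : StK A M K) (hZ : IsPGroup p Z) (hZG : Z ≤ G)
    (hGZ : G ≤ Subgroup.normalizer (Z : Set Γ))
    (hMZ : ∀ m ∈ M, A.π m ∈ Subgroup.normalizer (Z : Set Γ))
    {z : Γ → F} (hz : ∀ m ∈ M, ∀ x, z (A.a m x) = z x) (c : F)
    [Fintype {σ : Set (Subgroup Γ) // CH p G Z σ}] [Fintype (Subgroup Γ)] :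
    ∑ σ : {σ : Set (Subgroup Γ) // CH p G Z σ}, (-1) ^ σ.1.ncard *
      ((Nat.card (MC A M σ.1) : ℤ) *
        gE A (cut z (NS G σ.1)) ((NS G σ.1 : Set Γ) ∩ K) (MC A M σ.1) c) =
    ∑ R : Subgroup Γ, if R ≤ Z then ∑ σ : {σ : Set (Subgroup Γ) // CH p G Z σ},
      (-1) ^ σ.1.ncard * (if IsPGroup p R ∧ R ≤ NS G σ.1 then
        wK A p K z c R (NS G σ.1 ⊓ Subgroup.normalizer (R : Set Γ)) (MS A (MC A M σ.1) R)
          else 0) else 0 := by
  have h1 : ∀ σ : {σ : Set (Subgroup Γ) // CH p G Z σ}, (-1) ^ σ.1.ncard *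
      ((Nat.card (MC A M σ.1) : ℤ) *
        gE A (cut z (NS G σ.1)) ((NS G σ.1 : Set Γ) ∩ K) (MC A M σ.1) c) =
      ∑ R : Subgroup Γ, (-1) ^ σ.1.ncard * (if IsPGroup p R ∧ R ≤ NS G σ.1 then
        wK A p K z c R (NS G σ.1 ⊓ Subgroup.normalizer (R : Set Γ)) (MS A (MC A M σ.1) R)
          else 0) := by
    intro σ
    have h2 := kfiltK (p := p) (adm_chain h σ.1) (z := cut z (NS G σ.1))
      (fun m hm x => cut_inv' h hz hm x) (fun x hx => if_neg hx) (stK_MC hK σ.1) c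
    rw [← Nat.cast_mul, h2, Nat.cast_sum, Finset.mul_sum]
    refine Finset.sum_congr rfl fun R _ => ?_
    congr 1
    by_cases hR : IsPGroup p R ∧ R ≤ NS G σ.1
    · rw [if_pos hR, if_pos hR, Nat.cast_mul, cut_cut']
      rfl
    · rw [if_neg hR, if_neg hR, Nat.cast_zero]
  rw [Finset.sum_congr rfl fun σ _ => h1 σ, Finset.sum_comm]
  refine Finset.sum_congr rfl fun R _ => ?_
  by_cases hRZ : R ≤ Z
  · rw [if_pos hRZ]
  · rw [if_neg hRZ]
    by_cases hR : IsPGroup p R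
    · have h2 := togE hZ hZG hGZ hMZ (fun J K' => wK A p K z c R J K') hR hRZ
      refine Eq.trans ?_ h2
      refine Finset.sum_congr rfl fun σ _ => ?_
      by_cases h3 : R ≤ NS G σ.1
      · rw [if_pos ⟨hR, h3⟩, if_pos h3]
      · rw [if_neg (fun h => h3 h.2), if_neg h3]
    · refine Finset.sum_eq_zero fun σ _ => ?_
      rw [if_neg (fun h => hR h.1), mul_zero]

/-- functions with support in `K` and all functions -/
theorem altK_eq [Finite E] [Fact p.Prime] [IsAlgClosed F] [CharP F p] (h : Adm A M G)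
    (hK : StK A M K) (hZ : IsPGroup p Z) (hZG : Z ≤ G)
    (hGZ : G ≤ Subgroup.normalizer (Z : Set Γ))
    (hMZ : ∀ m ∈ M, A.π m ∈ Subgroup.normalizer (Z : Set Γ))
    (hKZ : ∀ x : Γ, (∃ k : ℕ, ¬ p ∣ k ∧ x ^ k ∈ Z) → x ∈ K)
    {z : Γ → F} (hz : ∀ m ∈ M, ∀ x, z (A.a m x) = z x) (c : F)
    [Fintype {σ : Set (Subgroup Γ) // CH p G Z σ}] :
    ∑ σ : {σ : Set (Subgroup Γ) // CH p G Z σ}, (-1) ^ σ.1.ncard *
      ((Nat.card (MC A M σ.1) : ℤ) *
        gE A (cut z (NS G σ.1)) ((NS G σ.1 : Set Γ) ∩ K) (MC A M σ.1) c) =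
    ∑ σ : {σ : Set (Subgroup Γ) // CH p G Z σ}, (-1) ^ σ.1.ncard *
      ((Nat.card (MC A M σ.1) : ℤ) *
        gE A (cut z (NS G σ.1)) (NS G σ.1 : Set Γ) (MC A M σ.1) c) := by
  have : Fintype (Subgroup Γ) := Fintype.ofFinite _
  rw [alt_mainK h hK hZ hZG hGZ hMZ hz c, alt_main h hZ hZG hGZ hMZ hz c]
  refine Finset.sum_congr rfl fun R _ => ?_
  by_cases hRZ : R ≤ Z
  · rw [if_pos hRZ, if_pos hRZ]
    refine Finset.sum_congr rfl fun σ _ => ?_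
    by_cases hR : IsPGroup p R ∧ R ≤ NS G σ.1
    · rw [if_pos hR, if_pos hR]
      unfold wK wE
      have h3 : SA p (NS G σ.1 ⊓ Subgroup.normalizer (R : Set Γ)) R ∩ (K : Set Γ) =
          SA p (NS G σ.1 ⊓ Subgroup.normalizer (R : Set Γ)) R := by
        refine Set.inter_eq_left.2 fun x hx => ?_
        obtain ⟨k, hk, hxk⟩ := sa_pow hR.2 hR.1 hx
        exact hKZ x ⟨k, hk, hRZ hxk⟩
      rw [h3]
    · rw [if_neg hR, if_neg hR]
  · rw [if_neg hRZ, if_neg hRZ]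

/-- the restriction to `K` -/
theorem adm_K (h : Adm A M G) (hKn : K.Normal) : Adm A M (G ⊓ K) where
  norm m hm n hn := ⟨h.norm m hm n hn.1, hKn.conj_mem n hn.2 _⟩
  inn n hn := h.inn n hn.1

theorem stK_of (hKn : K.Normal) : StK A M K := by
  have h1 : ∀ (m : E) (x : Γ), x ∈ K → A.a m x ∈ K := by
    intro m x hx
    rw [A.eq]
    exact hKn.conj_mem _ (K.pow_mem hx _) _
  intro m _ x
  refine ⟨fun hx => ?_, h1 m x⟩
  have h2 := h1 m⁻¹ _ hx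
  rwa [a_inv] at h2

/-- **the characters of the intersections with `K`** -/
theorem alt_chK [Finite E] [Fact p.Prime] [IsAlgClosed F] [CharP F p]
    (red : integralClosure ℤ ℂ →+* F) {A' : PA Γ E} (hπ : A'.π = A.π) (h : Adm A M G)
    (h' : Adm A' M G) (hKn : K.Normal) (hZ : IsPGroup p Z) (hZG : Z ≤ G)
    (hGZ : G ≤ Subgroup.normalizer (Z : Set Γ))
    (hMZ : ∀ m ∈ M, A.π m ∈ Subgroup.normalizer (Z : Set Γ))
    (hKZ : ∀ x : Γ, (∃ k : ℕ, ¬ p ∣ k ∧ x ^ k ∈ Z) → x ∈ K)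
    (hA : ∀ m ∈ M, ∀ x ∈ G, (∃ k : ℕ, ¬ p ∣ k ∧ x ^ k ∈ Z) → A.a m x = A'.a m x)
    {z : Γ → F} (hz : ∀ m ∈ M, ∀ x, z (A.a m x) = z x) (hz' : ∀ m ∈ M, ∀ x, z (A'.a m x) = z x)
    (hzK : ∀ x, x ∉ K → z x = 0)
    (c : F) [Fintype {σ : Set (Subgroup Γ) // CH p G Z σ}]
    [∀ σ : {σ : Set (Subgroup Γ) // CH p G Z σ}, Fintype (MC A M σ.1)] :
    ∑ σ : {σ : Set (Subgroup Γ) // CH p G Z σ}, (-1) ^ σ.1.ncard *
      ∑ m : MC A M σ.1, (Fnum A red (NS G σ.1 ⊓ K) m (cut z (NS G σ.1)) c : ℤ) =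
    ∑ σ : {σ : Set (Subgroup Γ) // CH p G Z σ}, (-1) ^ σ.1.ncard *
      ∑ m : MC A M σ.1, (Fnum A' red (NS G σ.1) m (cut z (NS G σ.1)) c : ℤ) := by
  rw [← alt_eq red hπ h h' hZ hZG hGZ hMZ hA hz hz' c]
  have hcs : ∀ σ : Set (Subgroup Γ), ∀ x, x ∉ NS G σ ⊓ K → cut z (NS G σ) x = 0 := by
    intro σ x hx
    unfold cut
    by_cases h1 : x ∈ NS G σ
    · rw [if_pos h1, hzK x fun h2 => hx ⟨h1, h2⟩]
    · rw [if_neg h1]
  have e1 : ∀ σ : {σ : Set (Subgroup Γ) // CH p G Z σ},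
      ∑ m : MC A M σ.1, (Fnum A red (NS G σ.1 ⊓ K) m (cut z (NS G σ.1)) c : ℤ) =
      (Nat.card (MC A M σ.1) : ℤ) *
        gE A (cut z (NS G σ.1)) ((NS G σ.1 : Set Γ) ∩ K) (MC A M σ.1) c := fun σ =>
    kdimE red (adm_K (adm_chain h σ.1) hKn) (fun m hm x => cut_inv' h hz hm x) (hcs σ.1) c
  have e2 : ∀ σ : {σ : Set (Subgroup Γ) // CH p G Z σ},
      ∑ m : MC A M σ.1, (Fnum A red (NS G σ.1) m (cut z (NS G σ.1)) c : ℤ) =
      (Nat.card (MC A M σ.1) : ℤ) *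
        gE A (cut z (NS G σ.1)) (NS G σ.1 : Set Γ) (MC A M σ.1) c := fun σ =>
    kdimE red (adm_chain h σ.1) (fun m hm x => cut_inv' h hz hm x) (fun x hx => if_neg hx) c
  rw [Finset.sum_congr rfl fun σ _ => congrArg (fun t : ℤ => (-1) ^ σ.1.ncard * t) (e1 σ),
    Finset.sum_congr rfl fun σ _ => congrArg (fun t : ℤ => (-1) ^ σ.1.ncard * t) (e2 σ)]
  exact altK_eq h (stK_of hKn) hZ hZG hGZ hMZ hKZ hz c

end

end Pool.Agent.Q18.OR
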