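import Pool.Agent.Q18.K.Filt

/-!
# The filtration, for the functions with support in a normal subgroup `K`
-/

open scoped BigOperators Classical

set_option linter.unusedSectionVars false

noncomputable section

namespace Pool.Agent.Q18.OR

open Pool.Agent.Q18.K
open Pool.Agent.Y63.NV (Kop Kfun SA cut)
open Pool.Agent.Y85.NV (cj mem_cj cj_one cj_mul cj_inv_cj cj_mono cj_le cj_pgroup card_cj SYL
  exists_syl sum_zero gen_eq rst rst_apply)

section

variable {Γ E : Type} [Group Γ] [Group E] {A : PA Γ E} [Finite Γ]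
variable {M : Subgroup E} {N : Subgroup Γ} {K : Subgroup Γ}

variable (A M K) in
/-- `K` is stable -/
def StK : Prop := ∀ m ∈ M, ∀ x, A.a m x ∈ K ↔ x ∈ K

/-- the elements whose centralisers have Sylow subgroups in `X` -/
def SXK (p : ℕ) (N K : Subgroup Γ) (X : Set (Subgroup Γ)) : Set Γ :=
  {x | (x ∈ N ∧ x ∈ K) ∧ ∃ R ∈ X, SYL p N x R}

theorem SXK_act {p : ℕ} (h : Adm A M N) (hK : StK A M K) {X : Set (Subgroup Γ)} (hX : StbE A M X) {m : E}
    (hm : m ∈ M) {x : Γ} (hx : x ∈ SXK p N K X) : A.a m x ∈ SXK p N K X := by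
  obtain ⟨h1, R, hR, h3⟩ := hx
  exact ⟨⟨a_mem h hm h1.1, (hK m hm x).2 h1.2⟩, _, hX m hm R hR, syl_act h h3 hm⟩

theorem SXK_act_iff {p : ℕ} (h : Adm A M N) (hK : StK A M K) {X : Set (Subgroup Γ)} (hX : StbE A M X) {m : E}
    (hm : m ∈ M) (x : Γ) : A.a m x ∈ SXK p N K X ↔ x ∈ SXK p N K X := by
  refine ⟨fun hx => ?_, SXK_act h hK hX hm⟩
  have h1 := SXK_act h hK hX (M.inv_mem hm) hx
  rwa [a_inv] at h1

theorem SXK_mono {p : ℕ} {X Y : Set (Subgroup Γ)} (h : X ⊆ Y) : SXK p N K X ⊆ SXK p N K Y := by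
  rintro x ⟨h1, R, hR, h3⟩
  exact ⟨h1, R, h hR, h3⟩

theorem SXK_union {p : ℕ} (X Y : Set (Subgroup Γ)) :
    SXK p N K (X ∪ Y) = SXK p N K X ∪ SXK p N K Y := by
  ext x
  constructor
  · rintro ⟨h1, R, hR | hR, h3⟩
    · exact Or.inl ⟨h1, R, hR, h3⟩
    · exact Or.inr ⟨h1, R, hR, h3⟩
  · rintro (hx | hx)
    · exact SXK_mono Set.subset_union_left hx
    · exact SXK_mono Set.subset_union_right hx

theorem SXK_disj {p : ℕ} [Fact p.Prime] (h : Adm A M N) {X Y : Set (Subgroup Γ)}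
    (hX : StbE A M X) (hd : ∀ R ∈ X, R ∉ Y) {x : Γ} (hx : x ∈ SXK p N K X) : x ∉ SXK p N K Y := by
  rintro ⟨_, S, hS, h4⟩
  obtain ⟨_, R, hR, h3⟩ := hx
  obtain ⟨n, hn, rfl⟩ := h3.conj_of h4
  exact hd _ (stb_conj h hX hn hR) hS

variable {F : Type} [Field F]

/-- The key lemma. -/
theorem keyK {p : ℕ} [Fact p.Prime] [CharP F p] (h : Adm A M N) {z : Γ → F}
    (hz : ∀ m ∈ M, ∀ x, z (A.a m x) = z x)
    {X Y : Set (Subgroup Γ)} (hX : StbE A M X)
    (hup : ∀ R ∈ Y, ∀ P ∈ X, R ≤ P → P ∈ Y) {w : Γ → F}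
    (hw : w ∈ VE A F (SXK p N K X \ SXK p N K Y) M) {x : Γ} (hx : x ∈ SXK p N K Y) :
    ∑ᶠ g : Γ, z g * w (g * x) = 0 := by
  obtain ⟨hxN, R, hR, hs⟩ := hx
  refine sum_zero p R hs.pg _ ?_ ?_
  · intro r hr g
    have h1 : r * g * r⁻¹ * x = r * (g * x) * r⁻¹ := by
      have h2 : r⁻¹ * x = x * r⁻¹ := hs.cent _ (R.inv_mem hr)
      rw [mul_assoc, h2]
      simp [mul_assoc]
    rw [conj_inv h hz (hs.le hr), h1, conj_inv h hw.2 (hs.le hr)]
  · intro g hg
    by_contra hcon
    have h1 : w (g * x) ≠ 0 := right_ne_zero_of_mul hcon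
    have h2 : g * x ∈ SXK p N K X \ SXK p N K Y := by
      by_contra h3
      exact h1 (hw.1 _ h3)
    obtain ⟨⟨h3, R1, hR1, hs1⟩, h5⟩ := h2
    apply h5
    have h6 : ∀ r ∈ R, r * (g * x) = g * x * r := by
      intro r hr
      rw [← mul_assoc, hg r hr, mul_assoc, hs.cent r hr, mul_assoc]
    obtain ⟨P, hP, hsP⟩ := exists_syl hs.le hs.pg h6
    obtain ⟨n, hn, rfl⟩ := hs1.conj_of hsP
    exact ⟨h3, _, hup R hR _ (stb_conj h hX hn hR1) hP, hsP⟩

theorem SXK_sub (p : ℕ) (N : Subgroup Γ) (X : Set (Subgroup Γ)) : SXK p N K X ⊆ (N : Set Γ) :=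
  fun _ hx => hx.1.1

/-- One step. -/
theorem gK_step {p : ℕ} [Fact p.Prime] [IsAlgClosed F] [CharP F p] (h : Adm A M N) {z : Γ → F}
    (hz : ∀ m ∈ M, ∀ x, z (A.a m x) = z x) (hsz : ∀ x, x ∉ N → z x = 0) (hK : StK A M K)
    {X Y O : Set (Subgroup Γ)} (hY : StbE A M Y) (hO : StbE A M O) (hX : X = O ∪ Y)
    (hd : ∀ R ∈ O, R ∉ Y) (hup : ∀ R ∈ Y, ∀ P ∈ X, R ≤ P → P ∈ Y) (c : F) :
    gE A z (SXK p N K X) M c = gE A z (SXK p N K O) M c + gE A z (SXK p N K Y) M c := by
  have hXs : StbE A M X := by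
    rw [hX]
    rintro m hm R (hR | hR)
    · exact Or.inl (hO m hm R hR)
    · exact Or.inr (hY m hm R hR)
  have hOX : SXK p N K O ⊆ SXK p N K X := SXK_mono (by rw [hX]; exact Set.subset_union_left)
  have hYX : SXK p N K Y ⊆ SXK p N K X := SXK_mono (by rw [hX]; exact Set.subset_union_right)
  have hXu : SXK p N K X = SXK p N K O ∪ SXK p N K Y := by rw [hX, SXK_union]
  have hOY : SXK p N K O ⊆ SXK p N K X \ SXK p N K Y := fun x hx => ⟨hOX hx, SXK_disj h hO hd hx⟩
  have cX : ∀ m ∈ M, ∀ x, A.a m x ∈ SXK p N K X ↔ x ∈ SXK p N K X :=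
    fun m hm x => SXK_act_iff h hK hXs hm x
  have cY : ∀ m ∈ M, ∀ x, A.a m x ∈ SXK p N K Y ↔ x ∈ SXK p N K Y :=
    fun m hm x => SXK_act_iff h hK hY hm x
  have cO : ∀ m ∈ M, ∀ x, A.a m x ∈ SXK p N K O ↔ x ∈ SXK p N K O :=
    fun m hm x => SXK_act_iff h hK hO hm x
  have h1 := Pool.Agent.Y487.NV.la F (Γ → F) (Kop z (SXK p N K X)) (Kop z (SXK p N K Y))
    (rst (SXK p N K Y)) (VE A F (SXK p N K X) M) (VE A F (SXK p N K O) M) (VE A F (SXK p N K Y) M)
    (fun v hv => kop_mem h hz hsz (SXK_sub p N X) cX hv)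
    (fun v hv => kop_mem h hz hsz (SXK_sub p N Y) cY hv) (VE_mono hOX)
    (fun v hv => rst_memE cY hv)
    (by
      intro w hw
      refine ⟨w, VE_mono hYX hw, ?_⟩
      funext x
      rw [rst_apply]
      by_cases hx : x ∈ SXK p N K Y
      · rw [if_pos hx]
      · rw [if_neg hx, hw.1 x hx])
    (by
      intro v hv
      constructor
      · intro h
        refine ⟨?_, hv.2⟩
        intro x hx
        by_cases hx' : x ∈ SXK p N K Y
        · have h2 := congrFun h x
          rw [rst_apply, if_pos hx'] at h2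
          exact h2
        · apply hv.1
          rw [hXu]
          rintro (h3 | h3)
          · exact hx h3
          · exact hx' h3
      · intro h'
        funext x
        rw [rst_apply]
        by_cases hx : x ∈ SXK p N K Y
        · rw [if_pos hx]
          apply h'.1
          intro h3
          exact SXK_disj h hO hd h3 hx
        · rw [if_neg hx]
          rfl)
    (by
      intro v hv
      funext x
      rw [rst_apply, kop_apply, kop_apply]
      by_cases hx : x ∈ SXK p N K Y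
      · rw [if_pos hx, if_pos hx, if_pos (hYX hx)]
        have h2 : v - rst (SXK p N K Y) v ∈ VE A F (SXK p N K X \ SXK p N K Y) M := by
          have h3 : v - rst (SXK p N K Y) v ∈ VE A F (SXK p N K X) M :=
            Submodule.sub_mem _ hv (VE_mono hYX (rst_memE cY hv))
          refine ⟨?_, h3.2⟩
          intro y hy
          by_cases hy' : y ∈ SXK p N K Y
          · rw [Pi.sub_apply, rst_apply, if_pos hy', sub_self]
          · exact h3.1 y fun hy2 => hy ⟨hy2, hy'⟩
        have h3 := keyK h hz hXs hup h2 hx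
        have h4 : ∑ᶠ g : Γ, z g * v (g * x) =
            ∑ᶠ g : Γ, z g * (v - rst (SXK p N K Y) v) (g * x) +
              ∑ᶠ g : Γ, z g * rst (SXK p N K Y) v (g * x) := by
          rw [← finsum_add_distrib (Set.toFinite _) (Set.toFinite _)]
          refine finsum_congr fun g => ?_
          rw [Pi.sub_apply]
          ring
        rw [h4, h3, zero_add]
      · rw [if_neg hx, if_neg hx])
    c
  have h2 : VE A F (SXK p N K O) M ⊓ (Kop z (SXK p N K X)).maxGenEigenspace c =
      VE A F (SXK p N K O) M ⊓ (Kop z (SXK p N K O)).maxGenEigenspace c := by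
    apply gen_eq
    · intro v hv
      funext x
      rw [kop_apply, kop_apply]
      by_cases hx : x ∈ SXK p N K O
      · rw [if_pos hx, if_pos (hOX hx)]
      · rw [if_neg hx]
        by_cases hx' : x ∈ SXK p N K X
        · rw [if_pos hx']
          have hx2 : x ∈ SXK p N K Y := by
            rw [hXu] at hx'
            exact hx'.resolve_left hx
          exact keyK h hz hXs hup (VE_mono hOY hv) hx2
        · rw [if_neg hx']
    · intro v hv
      exact kop_mem h hz hsz (SXK_sub p N O) cO hv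
  rw [h2] at h1
  exact h1

theorem main_indK [Finite E] {p : ℕ} [Fact p.Prime] [IsAlgClosed F] [CharP F p] (h : Adm A M N)
    {z : Γ → F} (hz : ∀ m ∈ M, ∀ x, z (A.a m x) = z x) (hsz : ∀ x, x ∉ N → z x = 0)
    (hK : StK A M K) (c : F)
    (X : Finset (Subgroup Γ)) (hg : ∀ R ∈ X, IsPGroup p R ∧ R ≤ N)
    (hX : StbE A M (X : Set (Subgroup Γ)))
    (hup : ∀ R ∈ X, ∀ P : Subgroup Γ, IsPGroup p P → P ≤ N → R ≤ P → P ∈ X) :
    Nat.card M * gE A z (SXK p N K (X : Set (Subgroup Γ))) M c =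
      ∑ R ∈ X, Nat.card (MS A M R) * gE A z (SXK p N K (orbE A M R)) M c := by
  induction X using Finset.strongInduction with
  | H X ih =>
    by_cases hne : X.Nonempty
    · obtain ⟨R0, hR0, hmin⟩ := X.exists_min_image (fun R => Nat.card R) hne
      have hOX : orbE A M R0 ⊆ (X : Set (Subgroup Γ)) := by
        rintro _ ⟨h, hh, rfl⟩
        exact hX h hh R0 hR0
      let O : Finset (Subgroup Γ) := X.filter (fun R => R ∈ orbE A M R0)
      let Y : Finset (Subgroup Γ) := X.filter (fun R => R ∉ orbE A M R0)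
      have hO : (O : Set (Subgroup Γ)) = orbE A M R0 := by
        ext R
        simp only [O, Finset.coe_filter, Set.mem_ofPred_eq]
        exact ⟨fun h => h.2, fun h => ⟨hOX h, h⟩⟩
      have hYX : Y ⊂ X := by
        refine Finset.filter_ssubset.2 ⟨R0, hR0, ?_⟩
        exact fun h => h (self_orbE R0)
      have hYs : StbE A M (Y : Set (Subgroup Γ)) := by
        intro h hh R hR
        have hR' := Finset.mem_filter.1 (Finset.mem_coe.1 hR)
        refine Finset.mem_coe.2 (Finset.mem_filter.2 ⟨hX h hh R hR'.1, ?_⟩)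
        intro h3
        apply hR'.2
        have h4 := stb_orbE R0 _ (M.inv_mem hh) _ h3
        rwa [cj_πinv] at h4
      have hYup : ∀ R ∈ Y, ∀ P : Subgroup Γ, IsPGroup p P → P ≤ N → R ≤ P → P ∈ Y := by
        intro R hR P hP hPN hRP
        have hR' := Finset.mem_filter.1 hR
        refine Finset.mem_filter.2 ⟨hup R hR'.1 P hP hPN hRP, ?_⟩
        rintro ⟨k, hk, rfl⟩
        apply hR'.2
        have h3 := hmin R hR'.1
        rw [← card_cjE (A := A) k R0] at h3
        have h4 : R = cj (A.π k) R0 := Subgroup.eq_of_le_of_card_ge hRP h3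
        rw [h4]
        exact ⟨k, hk, rfl⟩
      have hXu : (X : Set (Subgroup Γ)) = orbE A M R0 ∪ (Y : Set (Subgroup Γ)) := by
        ext R
        constructor
        · intro hR
          by_cases h : R ∈ orbE A M R0
          · exact Or.inl h
          · exact Or.inr (Finset.mem_coe.2 (Finset.mem_filter.2 ⟨hR, h⟩))
        · rintro (hR | hR)
          · exact hOX hR
          · exact Finset.mem_coe.2 (Finset.mem_filter.1 (Finset.mem_coe.1 hR)).1
      have h1 := gK_step h hz hsz hK hYs (stb_orbE R0) hXu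
        (fun R hR hR' => (Finset.mem_filter.1 (Finset.mem_coe.1 hR')).2 hR)
        (fun R hR P hP hRP => Finset.mem_coe.2
          (hYup R (Finset.mem_coe.1 hR) P (hg P (Finset.mem_coe.1 hP)).1
            (hg P (Finset.mem_coe.1 hP)).2 hRP)) c
      have h2 := ih Y hYX (fun R hR => hg R (Finset.mem_filter.1 hR).1) hYs hYup
      have h3 : ∑ R ∈ O, Nat.card (MS A M R) * gE A z (SXK p N K (orbE A M R)) M c =
          Nat.card M * gE A z (SXK p N K (orbE A M R0)) M c := by
        have h4 : ∀ R ∈ O, Nat.card (MS A M R) * gE A z (SXK p N K (orbE A M R)) M c =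
            Nat.card (MS A M R0) * gE A z (SXK p N K (orbE A M R0)) M c := by
          intro R hR
          have h5 : R ∈ orbE A M R0 := (Finset.mem_filter.1 hR).2
          have h6 := card_orbE (A := A) (M := M) R
          rw [orbE_eq h5] at h6 ⊢
          have h7 := card_orbE (A := A) (M := M) R0
          have h8 : 0 < Nat.card (orbE A M R0) := by
            have : Nonempty (orbE A M R0) := ⟨⟨R0, self_orbE R0⟩⟩
            exact Nat.card_pos
          rw [← h7] at h6
          rw [Nat.eq_of_mul_eq_mul_left h8 h6]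
        rw [Finset.sum_congr rfl h4, Finset.sum_const, smul_eq_mul, ← mul_assoc]
        congr 1
        have h5 : O.card = Nat.card (orbE A M R0) := by
          rw [← hO]
          simp
        rw [h5]
        exact card_orbE R0
      rw [h1, mul_add, h2, ← h3]
      exact Finset.sum_filter_add_sum_filter_not X (fun R => R ∈ orbE A M R0) _
    · rw [Finset.not_nonempty_iff_eq_empty] at hne
      subst hne
      rw [Finset.sum_empty]
      have h1 : SXK p N K ((∅ : Finset (Subgroup Γ)) : Set (Subgroup Γ)) = ∅ := by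
        ext x
        simp [SXK]
      have h2 : VE A F (∅ : Set Γ) M = ⊥ := by
        rw [eq_bot_iff]
        intro v hv
        rw [Submodule.mem_bot]
        funext x
        exact hv.1 x (by simp)
      rw [h1, gE, h2, bot_inf_eq, finrank_bot, mul_zero]

/-- one step of the filtration by the Sylow `p`-subgroups of the centralisers -/
theorem filtaK {p : ℕ} [Fact p.Prime] [CharP F p] (h : Adm A M N) {z : Γ → F}
    (hz : ∀ m ∈ M, ∀ x, z (A.a m x) = z x) (hsz : ∀ x, x ∉ N → z x = 0)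
    (hK : StK A M K) (c : F)
    {R : Subgroup Γ} (hR : IsPGroup p R) (hRN : R ≤ N) :
    gE A z (SXK p N K (orbE A M R)) M c =
      gE A (cut z (Subgroup.centralizer (R : Set Γ)))
        (SA p (N ⊓ Subgroup.normalizer (R : Set Γ)) R ∩ K) (MS A M R) c := by
  set S := SA p (N ⊓ Subgroup.normalizer (R : Set Γ)) R ∩ (K : Set Γ) with hS
  set SC := SXK p N K (orbE A M R) with hSC
  have hMS : MS A M R ≤ M := inf_le_left
  have hRJ : ∀ r ∈ R, r ∈ N ⊓ Subgroup.normalizer (R : Set Γ) :=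
    fun r hr => ⟨hRN hr, Subgroup.le_normalizer hr⟩
  have hmS : ∀ {x : Γ}, x ∈ S ↔ (x ∈ N ∧ x ∈ K) ∧ SYL p N x R := fun {x} => by
    rw [hS, Set.mem_inter_iff, sa_iff hRN hR]
    exact ⟨fun h => ⟨⟨h.1.1, h.2⟩, h.1.2⟩, fun h => ⟨⟨h.1.1, h.2⟩, h.1.2⟩⟩
  have hSJ : ∀ m ∈ MS A M R, ∀ x, A.a m x ∈ S ↔ x ∈ S := by
    have h1 : ∀ m ∈ MS A M R, ∀ x ∈ S, A.a m x ∈ S := by
      intro m hm x hx
      rw [hmS] at hx ⊢
      refine ⟨⟨a_mem h (hMS hm) hx.1.1, (hK m (hMS hm) x).2 hx.1.2⟩, ?_⟩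
      have h2 := syl_act h hx.2 (hMS hm)
      rwa [cj_eq_iff.2 hm.2] at h2
    intro m hm x
    refine ⟨fun hx => ?_, h1 m hm x⟩
    have h2 := h1 m⁻¹ (Subgroup.inv_mem _ hm) _ hx
    rwa [a_inv] at h2
  have hSCM : ∀ m ∈ M, ∀ x, A.a m x ∈ SC ↔ x ∈ SC :=
    fun m hm x => SXK_act_iff h hK (stb_orbE R) hm x
  have hSSC : S ⊆ SC := fun x hx => ⟨(hmS.1 hx).1, R, self_orbE R, (hmS.1 hx).2⟩
  have hfus : ∀ x ∈ S, ∀ m ∈ M, A.a m x ∈ S → ∃ k ∈ MS A M R, A.a m x = A.a k x := by
    intro x hx m hm hx'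
    have h1 := syl_act h (hmS.1 hx).2 hm
    have h2 := (hmS.1 hx').2
    -- conjugate inside the centraliser
    obtain ⟨n, hn, h3⟩ : ∃ n ∈ N ⊓ Subgroup.centralizer {A.a m x}, R = cj n (cj (A.π m) R) := by
      set C := N ⊓ Subgroup.centralizer {A.a m x} with hC
      have h1' : SYL p C (A.a m x) (cj (A.π m) R) :=
        ⟨h1.le_cent, h1.pg, h1.cent, by
          have e : C ⊓ Subgroup.centralizer {A.a m x} = C := inf_eq_left.2 inf_le_right
          rw [e]; exact h1.card⟩
      have h2' : SYL p C (A.a m x) R :=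
        ⟨h2.le_cent, h2.pg, h2.cent, by
          have e : C ⊓ Subgroup.centralizer {A.a m x} = C := inf_eq_left.2 inf_le_right
          rw [e]; exact h2.card⟩
      exact h1'.conj_of h2'
    obtain ⟨k, hk, hk1, hk2⟩ := h.inn n hn.1
    refine ⟨k * m, ⟨M.mul_mem hk hm, ?_⟩, ?_⟩
    · change A.π (k * m) ∈ Subgroup.normalizer (R : Set Γ)
      rw [← cj_eq_iff, map_mul, cj_mul, hk1, ← h3]
    · rw [map_mul, Equiv.Perm.mul_apply, hk2]
      have h4 := Subgroup.mem_centralizer_singleton_iff.1 hn.2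
      rw [h4, mul_inv_cancel_right]
  -- the elements of `SC` which centralise `R` are in `S`
  have hback : ∀ y ∈ N, (∀ r ∈ R, r * y = y * r) → y ∈ SC → y ∈ S := by
    rintro y hyN hyR ⟨⟨_, hyK⟩, R', ⟨m, hm, rfl⟩, hy⟩
    rw [hmS]
    refine ⟨⟨hyN, hyK⟩, hRN, hR, hyR, ?_⟩
    rw [hy.card, card_cj]
  refine Pool.Agent.Y177.NV.finrank_eq (Kop z SC)
    (Kop (cut z (Subgroup.centralizer (R : Set Γ))) S) (rst S) (VE A F SC M)
    (VE A F S (MS A M R)) ?_ ?_ ?_ ?_ ?_ c
  · intro θ hθ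
    exact kop_mem h hz hsz (SXK_sub p N _) hSCM hθ
  · intro θ hθ
    refine ⟨fun x hx => by rw [rst_apply, if_neg hx], fun m hm x => ?_⟩
    rw [rst_apply, rst_apply, hθ.2 m (hMS hm)]
    by_cases hx7 : x ∈ S
    · rw [if_pos hx7, if_pos ((hSJ m hm x).2 hx7)]
    · rw [if_neg hx7, if_neg (fun h7 => hx7 ((hSJ m hm x).1 h7))]
  · -- extension
    intro η hη
    have hval : ∀ x m₁ m₂, m₁ ∈ M → m₂ ∈ M → A.a m₁ x ∈ S → A.a m₂ x ∈ S →
        η (A.a m₁ x) = η (A.a m₂ x) := by
      intro x m₁ m₂ hh₁ hh₂ hx₁ hx₂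
      have h1 : A.a m₂ x = A.a (m₂ * m₁⁻¹) (A.a m₁ x) := by
        rw [map_mul, Equiv.Perm.mul_apply, a_inv]
      rw [h1] at hx₂ ⊢
      obtain ⟨j, hj, hj'⟩ := hfus _ hx₁ _ (M.mul_mem hh₂ (M.inv_mem hh₁)) hx₂
      rw [hj', hη.2 j hj]
    have hch : ∀ x ∈ SC, ∃ m, m ∈ M ∧ A.a m x ∈ S := by
      rintro x ⟨⟨hxN, hxK⟩, R', ⟨m, hm, rfl⟩, hx⟩
      refine ⟨m⁻¹, M.inv_mem hm, ?_⟩
      rw [hmS]
      refine ⟨⟨a_mem h (M.inv_mem hm) hxN, (hK _ (M.inv_mem hm) x).2 hxK⟩, ?_⟩
      have h1 := syl_act h hx (M.inv_mem hm)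
      rwa [cj_πinv] at h1
    choose! κ hκ using hch
    refine ⟨fun x => if x ∈ SC then η (A.a (κ x) x) else 0,
      ⟨fun x hx => if_neg hx, fun m hm x => ?_⟩, ?_⟩
    · by_cases hx : x ∈ SC
      · have hx' := (hSCM m hm x).2 hx
        simp only [hx, hx', if_true]
        have h1 := hκ _ hx'
        have h2 := hκ _ hx
        have h3 : A.a (κ (A.a m x)) (A.a m x) = A.a (κ (A.a m x) * m) x := by
          rw [map_mul, Equiv.Perm.mul_apply]
        have h4 := h1.2
        rw [h3] at h4 ⊢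
        exact hval x _ _ (M.mul_mem h1.1 hm) h2.1 h4 h2.2
      · have hx' : A.a m x ∉ SC := fun h' => hx ((hSCM m hm x).1 h')
        simp only [hx, hx', if_false]
    · funext x
      rw [rst_apply]
      by_cases hx : x ∈ S
      · simp only [hx, hSSC hx, if_true]
        have h2 := hκ _ (hSSC hx)
        have h3 := hval x _ 1 h2.1 M.one_mem h2.2 (by
          rw [map_one]
          exact hx)
        rw [h3, map_one]
        rfl
      · rw [if_neg hx, hη.1 x hx]
  · -- injectivity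
    intro θ hθ h0
    funext x
    by_cases hx : x ∈ SC
    · obtain ⟨⟨hxN, hxK⟩, R', ⟨m, hm, rfl⟩, hx'⟩ := hx
      have h2 : A.a m⁻¹ x ∈ S := by
        rw [hmS]
        refine ⟨⟨a_mem h (M.inv_mem hm) hxN, (hK _ (M.inv_mem hm) x).2 hxK⟩, ?_⟩
        have h1 := syl_act h hx' (M.inv_mem hm)
        rwa [cj_πinv] at h1
      have h1 := congrFun h0 (A.a m⁻¹ x)
      rw [rst_apply, if_pos h2, hθ.2 m⁻¹ (M.inv_mem hm)] at h1
      exact h1
    · exact hθ.1 x hx
  · -- the two operators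
    intro θ hθ
    funext x
    rw [rst_apply, kop_apply, kop_apply]
    by_cases hx : x ∈ S
    · rw [if_pos hx, if_pos hx, if_pos (hSSC hx)]
      have hxc := (hmS.1 hx).2.cent
      rw [← sub_eq_zero, ← finsum_sub_distrib (Set.toFinite _) (Set.toFinite _)]
      have hrx : ∀ r ∈ R, ∀ g, r * g * r⁻¹ * x = r * (g * x) * r⁻¹ := by
        intro r hr g
        calc r * g * r⁻¹ * x = r * g * (r⁻¹ * (x * r)) * r⁻¹ := by group
          _ = r * g * (r⁻¹ * (r * x)) * r⁻¹ := by rw [hxc r hr]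
          _ = r * (g * x) * r⁻¹ := by group
      have hR2 : rst S θ ∈ VE A F S (MS A M R) := by
        refine ⟨fun x hx => by rw [rst_apply, if_neg hx], fun m hm x => ?_⟩
        rw [rst_apply, rst_apply, hθ.2 m (hMS hm)]
        by_cases hx7 : x ∈ S
        · rw [if_pos hx7, if_pos ((hSJ m hm x).2 hx7)]
        · rw [if_neg hx7, if_neg (fun h7 => hx7 ((hSJ m hm x).1 h7))]
      refine Pool.Agent.Y177.NV.sum_conj_eq_zero hR _ (fun r hr g => ?_) fun g hg => ?_
      · rw [hrx r hr, conj_inv h hz (hRN hr), conj_inv h hθ.2 (hRN hr),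
          conj_inv (adm_MS h R) (fun m hm x => cut_act hz hm x) (hRJ r hr),
          conj_inv (adm_MS h R) hR2.2 (hRJ r hr)]
      · have hgC : g ∈ Subgroup.centralizer (R : Set Γ) := by
          rw [Subgroup.mem_centralizer_iff]
          exact hg
        rw [rst_apply, cut, if_pos hgC, ← mul_sub]
        by_cases hz0 : z g = 0
        · rw [hz0, zero_mul]
        · have hgN : g ∈ N := by
            by_contra h'
            exact hz0 (hsz g h')
          by_cases hy : g * x ∈ S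
          · rw [if_pos hy, sub_self, mul_zero]
          · rw [if_neg hy]
            have h1 : g * x ∉ SC := by
              intro h'
              refine hy (hback _ ?_ ?_ h')
              · exact N.mul_mem hgN (hmS.1 hx).1.1
              · intro r hr
                have h2 : Commute r (g * x) := Commute.mul_right (hg r hr) (hxc r hr)
                exact h2
            rw [hθ.1 _ h1, sub_self, mul_zero]
    · rw [if_neg hx, if_neg hx]

/-- **KFILT** -/
theorem kfiltK [Finite E] {p : ℕ} [Fact p.Prime] [IsAlgClosed F] [CharP F p] (h : Adm A M N)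
    {z : Γ → F} (hz : ∀ m ∈ M, ∀ x, z (A.a m x) = z x) (hsz : ∀ x, x ∉ N → z x = 0)
    (hK : StK A M K) (c : F)
    [Fintype (Subgroup Γ)] :
    Nat.card M * gE A z ((N : Set Γ) ∩ K) M c = ∑ R : Subgroup Γ, if IsPGroup p R ∧ R ≤ N then
      Nat.card (MS A M R) * gE A (cut z (Subgroup.centralizer (R : Set Γ)))
        (SA p (N ⊓ Subgroup.normalizer (R : Set Γ)) R ∩ K) (MS A M R) c else 0 := by
  have h3 := main_indK h hz hsz hK c (Finset.univ.filter (fun R => IsPGroup p R ∧ R ≤ N))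
    (fun R hR => (Finset.mem_filter.1 hR).2)
    (by
      intro m hm R hR
      rw [Finset.coe_filter] at hR ⊢
      refine ⟨Finset.mem_univ _, cj_pgroup hR.2.1, ?_⟩
      intro y hy
      rw [mem_cj] at hy
      exact (cj_N h hm).1 (hR.2.2 hy))
    (fun R _ P hP hPN _ => Finset.mem_filter.2 ⟨Finset.mem_univ _, hP, hPN⟩)
  have h4 : SXK p N K ((Finset.univ.filter (fun R => IsPGroup p R ∧ R ≤ N) :
      Finset (Subgroup Γ)) : Set (Subgroup Γ)) = (N : Set Γ) ∩ K := by
    ext x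
    constructor
    · exact fun hx => hx.1
    · intro hx
      obtain ⟨R, _, hR⟩ := exists_syl (p := p) (H := N) (x := x) (Q := ⊥) bot_le IsPGroup.of_bot
        (by rintro r hr; rw [Subgroup.mem_bot.1 hr]; simp)
      refine ⟨hx, R, ?_, hR⟩
      rw [Finset.coe_filter]
      exact ⟨Finset.mem_univ _, hR.pg, hR.le⟩
  rw [h4] at h3
  rw [h3, Finset.sum_filter]
  refine Finset.sum_congr rfl fun R _ => ?_
  by_cases hR : IsPGroup p R ∧ R ≤ N
  · rw [if_pos hR, if_pos hR, filtaK h hz hsz hK c hR.1 hR.2]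
  · rw [if_neg hR, if_neg hR]

end

end Pool.Agent.Q18.OR
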