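import Pool.Agent.Q18.OR.Blk

/-!
# The alternating sum of the numbers of stable orbits, for a block
-/

open scoped BigOperators Classical

set_option linter.unusedSectionVars false

noncomputable section

namespace Pool.Agent.Q18.OR

open Pool.Agent.Q18.K
open Pool.Agent.Helper884.IC (IsIrrChar irr_finite)
open Pool.Agent.Y63.NV (redC centralValue IsClassFun IsBlock cut InZ)
open Pool.Agent.Y63.KR
open Pool.Agent.Y63.AWC (irr_comp mult St_eq)
open Pool.Agent.Y286.NV (centralValue_comp irr_class)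
open Pool.Agent.Y930.NV

section

variable {Γ : Type} [Group Γ] [Finite Γ] {F : Type} [Field F] {K : Subgroup Γ} [hK : K.Normal]

/-- the character lies under the block `B` -/
def PB (red : integralClosure ℤ ℂ →+* F) (B : (Γ → F) → F) (K : Subgroup Γ) {N : Subgroup Γ}
    (θ : N → ℂ) : Prop :=
  ∀ f : Γ → F, InZ K f → centralValue red θ (fun x => f x) = B f

/-- the invariant functions with support in `K` -/
def CUK (V : GU Γ) (K : Subgroup Γ) (F : Type) [Field F] : Submodule F (Γ → F) where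
  carrier := {z | z ∈ CU V F ∧ InZ K z}
  zero_mem' := ⟨(CU V F).zero_mem, fun _ _ => rfl, fun _ _ => rfl⟩
  add_mem' := by
    rintro a b ⟨ha, ha'⟩ ⟨hb, hb'⟩
    refine ⟨(CU V F).add_mem ha hb, fun g x => ?_, fun x hx => ?_⟩
    · rw [Pi.add_apply, Pi.add_apply, ha'.conj, hb'.conj]
    · rw [Pi.add_apply, ha'.supp x hx, hb'.supp x hx, add_zero]
  smul_mem' := by
    rintro c a ⟨ha, ha'⟩
    refine ⟨(CU V F).smul_mem c ha, fun g x => ?_, fun x hx => ?_⟩
    · rw [Pi.smul_apply, Pi.smul_apply, ha'.conj]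
    · rw [Pi.smul_apply, ha'.supp x hx, smul_zero]

/-- a block as a functional -/
def blUK (V : GU Γ) {B : (Γ → F) → F} (hB : IsBlock B) : CUK V K F →ₗ[F] F where
  toFun z := B z.1
  map_add' a b := hB.add _ _ a.2.2.conj b.2.2.conj
  map_smul' c a := hB.smul c _ a.2.2.conj

theorem hKZ_of {p : ℕ} [Fact p.Prime] {Z : Subgroup Γ} (hZK : Z ≤ K) (hp : IsPGroup p (Γ ⧸ K))
    (x : Γ) (h : ∃ k : ℕ, ¬ p ∣ k ∧ x ^ k ∈ Z) : x ∈ K := by
  obtain ⟨k, hk, hx⟩ := h
  rw [← QuotientGroup.eq_one_iff]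
  obtain ⟨n, hn⟩ := hp (x : Γ ⧸ K)
  have h1 : (x : Γ ⧸ K) ^ k = 1 := by
    rw [← QuotientGroup.mk_pow, QuotientGroup.eq_one_iff]
    exact hZK hx
  have h2 : orderOf (x : Γ ⧸ K) ∣ k := orderOf_dvd_of_pow_eq_one h1
  have h3 : orderOf (x : Γ ⧸ K) ∣ p ^ n := orderOf_dvd_of_pow_eq_one hn
  have h4 : orderOf (x : Γ ⧸ K) ∣ Nat.gcd k (p ^ n) := Nat.dvd_gcd h2 h3
  have h5 : Nat.Coprime k (p ^ n) := by
    apply Nat.Coprime.pow_right
    rw [Nat.coprime_comm]
    exact (Nat.Prime.coprime_iff_not_dvd Fact.out).2 hk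
  rw [h5] at h4
  exact orderOf_eq_one_iff.1 (Nat.dvd_one.1 h4)

theorem sep2 [Infinite F] {W : Type} [AddCommGroup W] [Module F W] {I J : Type} [Finite I]
    [Finite J] (μ : I → (W →ₗ[F] F)) (ν : J → (W →ₗ[F] F)) (b : W →ₗ[F] F) :
    ∃ z : W, (∀ i, μ i z = b z → μ i = b) ∧ ∀ j, ν j z = b z → ν j = b := by
  obtain ⟨z, hz⟩ := Pool.Agent.Y286.NV.exists_sep (Sum.elim μ ν) b
  exact ⟨z, fun i => hz (Sum.inl i), fun j => hz (Sum.inr j)⟩

/-- **the alternating sum over chains for a block** -/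
theorem blk_sumO {p : ℕ} [Fact p.Prime] [IsAlgClosed F] [CharP F p] {Z : Subgroup Γ}
    (red : integralClosure ℤ ℂ →+* F) (hZ : IsPGroup p Z) [hZn : Z.Normal] (hZK : Z ≤ K)
    (hp : IsPGroup p (Γ ⧸ K))
    {s : ℂ ≃+* ℂ} (hs : ∀ ζ : ℂ, ζ ^ Nat.card Γ = 1 →
      (∃ k : ℕ, ¬ p ∣ k ∧ ζ ^ (k * Monoid.exponent Z) = 1) → s ζ = ζ)
    {B : (Γ → F) → F} (hB : IsBlock B) [Fintype {σ : Set (Subgroup Γ) // CH p ⊤ Z σ}] :
    ∑ σ : {σ : Set (Subgroup Γ) // CH p ⊤ Z σ}, (-1) ^ σ.1.ncard *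
      ((Nat.card (chainStabilizer σ.1) : ℤ) *
        ((NO K (chainStabilizer σ.1) (PB red B K) (fun θ x => s (θ x)) : ℤ) -
          numQ red B (fun _ => True) (chainStabilizer σ.1))) = 0 := by
  have hInf : Infinite F := inferInstance
  set V := GUσ Γ s with hV
  have hpp : p.Prime := Fact.out
  have hexp : Monoid.exponent Z ≠ 0 := Monoid.exponent_ne_zero_of_finite
  -- the automorphisms are trivial modulo `p`
  have hred : ∀ (u : V.U) (ζ : ℂ), ζ ^ Nat.card Γ = 1 → redC red (V.s u ζ) = redC red ζ := by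
    intro u ζ hζ
    refine red_fix (p := p) red (σ := V.s u) (n := Nat.card Γ) ?_ Nat.card_pos hζ
    rintro ζ hζ' ⟨k, hk, hζ⟩
    refine GUσ_fix s (hs ζ hζ' ⟨k, hk, ?_⟩) u
    rw [pow_mul, hζ, one_pow]
  -- the power maps are trivial on the elements with `p`-part in `Z`
  have hVx : ∀ (u : V.U) (x : Γ), (∃ k : ℕ, ¬ p ∣ k ∧ x ^ k ∈ Z) →
      x ^ ex (u : (ZMod (Nat.card Γ))ˣ) = x := by
    rintro u x ⟨k, hk, hx⟩
    refine pow_fix (N := k * Monoid.exponent Z) ?_ (fun ζ hζ' hζ => hs ζ hζ' ⟨k, hk, hζ⟩) u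
    rw [pow_mul]
    have h1 := Monoid.pow_exponent_eq_one (⟨x ^ k, hx⟩ : Z)
    exact congrArg Subtype.val h1
  -- the separation
  have hfin1 : ∀ σ : {σ : Set (Subgroup Γ) // CH p ⊤ Z σ},
      Finite {χ : chainStabilizer σ.1 → ℂ // IsIrrChar χ} := fun σ => by
    have : Fintype (chainStabilizer σ.1) := Fintype.ofFinite _
    exact (irr_finite (G := chainStabilizer σ.1)).to_subtype
  have hfin2 : ∀ σ : {σ : Set (Subgroup Γ) // CH p ⊤ Z σ},
      Finite {χ : ↥(chainStabilizer σ.1 ⊓ K) → ℂ // IsIrrChar χ} := fun σ => by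
    have : Fintype ↥(chainStabilizer σ.1 ⊓ K) := Fintype.ofFinite _
    exact (irr_finite (G := ↥(chainStabilizer σ.1 ⊓ K))).to_subtype
  have hLb : ∀ (σ : {σ : Set (Subgroup Γ) // CH p ⊤ Z σ}) (χ : chainStabilizer σ.1 → ℂ),
      IsIrrChar χ → IsBlock (fun f : Γ → F => centralValue red χ (fun x => f x)) :=
    fun σ χ hχ => lin_block (p := p) red σ.2.chain σ.2.isp hχ
  have hov : ∀ (σ : {σ : Set (Subgroup Γ) // CH p ⊤ Z σ})
      (θ : {θ : ↥(chainStabilizer σ.1 ⊓ K) → ℂ // IsIrrChar θ}),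
      ∃ χ : chainStabilizer σ.1 → ℂ, IsIrrChar χ ∧ ∀ z : Γ → F, InZ K z →
        centralValue red χ (fun x => z x) = centralValue red θ.1 (fun x => z x) := by
    intro σ θ
    obtain ⟨χ, h1, h2⟩ := exists_over (K := K) (H := chainStabilizer σ.1) θ.2
    exact ⟨χ, h1, h2 F red⟩
  choose ov hov1 hov2 using hov
  obtain ⟨z, hz, hz3⟩ := sep2
    (fun i : (Σ σ : {σ : Set (Subgroup Γ) // CH p ⊤ Z σ},
      {χ : chainStabilizer σ.1 → ℂ // IsIrrChar χ}) => blUK (K := K) V (hLb i.1 i.2.1 i.2.2))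
    (fun i : (Σ σ : {σ : Set (Subgroup Γ) // CH p ⊤ Z σ},
      {θ : ↥(chainStabilizer σ.1 ⊓ K) → ℂ // IsIrrChar θ}) =>
      blUK (K := K) V (hLb i.1 (ov i.1 i.2) (hov1 i.1 i.2)))
    (blUK (K := K) V hB)
  have hz1 := z.2.1
  have hz2 := z.2.2
  -- the sum for one power map
  let u₀ : V.U := ⟨uσ Γ s, Subgroup.mem_zpowers _⟩
  have h1 := pow_sumO (V := V) (p := p) (Z := Z) (K := K) red hZ (hKZ_of hZK hp) hVx (z := z.1)
    hz1.1 hz1.2 hz2.supp (B z.1) u₀
  -- the characters of the stabilisers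
  have h2 : ∀ σ : {σ : Set (Subgroup Γ) // CH p ⊤ Z σ},
      Fx red (chainStabilizer σ.1) 1 z.1 (B z.1) =
        numQ red B (fun _ => True) (chainStabilizer σ.1) := by
    intro σ
    unfold Fx numQ
    refine Nat.card_congr (Equiv.subtypeEquivRight fun χ => ?_)
    refine and_congr_right fun hχ => ?_
    constructor
    · rintro ⟨_, h⟩
      refine ⟨trivial, ?_⟩
      have h6 := hz ⟨σ, χ, hχ⟩ h
      have h7 : ∀ f : Γ → F, InZ K f → centralValue red χ (fun x => f x) = B f :=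
        agree_K red V hred hχ (hLb σ χ hχ) hB
          (fun z' hz' hz'' => LinearMap.congr_fun h6 ⟨z', hz', hz''⟩)
      exact blk_ext p _ K le_rfl hp (hLb σ χ hχ) hB h7
    · rintro ⟨_, h⟩
      refine ⟨fun x => ?_, h z.1 hz1.1⟩
      rw [ex_one (hxn _ x)]
  -- the characters of the intersections with `K`
  have h3 : ∀ σ : {σ : Set (Subgroup Γ) // CH p ⊤ Z σ},
      NO K (chainStabilizer σ.1) (Pz red z.1 (B z.1)) (pwv (u₀ : (ZMod (Nat.card Γ))ˣ)) =
        NO K (chainStabilizer σ.1) (PB red B K) (fun θ x => s (θ x)) := by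
    intro σ
    have : Fintype ↥(chainStabilizer σ.1 ⊓ K) := Fintype.ofFinite _
    unfold NO
    refine Nat.card_congr (Equiv.subtypeEquivRight fun O => ?_)
    refine exists_congr fun θ => and_congr_right fun hθ => ?_
    have h4 : Pz red z.1 (B z.1) θ ↔ PB red B K θ := by
      constructor
      · intro h f hf
        have h5 := hov2 σ ⟨θ, hθ⟩
        have h6 := hz3 ⟨σ, θ, hθ⟩ ((h5 z.1 hz2).trans h)
        rw [← h5 f hf]
        exact agree_K red V hred (hov1 σ ⟨θ, hθ⟩) (hLb σ _ (hov1 σ ⟨θ, hθ⟩)) hB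
          (fun z' hz' hz'' => LinearMap.congr_fun h6 ⟨z', hz', hz''⟩) f hf
      · exact fun h => h z.1 hz2
    have h5 : pwv (u₀ : (ZMod (Nat.card Γ))ˣ) θ = fun x => s (θ x) := by
      funext x
      exact char_pow_gal s Nat.card_pos (fun ζ hζ => uσ_spec s ζ hζ) hθ (hxn _ x)
    rw [h4, h5]
  rw [← h1]
  refine Finset.sum_congr rfl fun σ _ => ?_
  rw [h2, h3]

/-- conjugate subgroups -/
theorem NO_conj (red : integralClosure ℤ ℂ →+* F) (B : (Γ → F) → F) (s : ℂ → ℂ) (g : Γ)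
    (H : Subgroup Γ) : NO K (conjSub g H) (PB red B K) (fun θ x => s (θ x)) =
      NO K H (PB red B K) (fun θ x => s (θ x)) := by
  have : Fintype ↥(H ⊓ K) := Fintype.ofFinite _
  let e : ↥(H ⊓ K) ≃* ↥(conjSub g H ⊓ K) :=
    { toFun := fun x => ⟨g * x * g⁻¹, ⟨x, x.2.1, rfl⟩, hK.conj_mem x x.2.2 g⟩
      invFun := fun x => ⟨g⁻¹ * x * g, by
        obtain ⟨y, hy, hy'⟩ := x.2.1
        have h1 : g⁻¹ * (x : Γ) * g = y := by
          have h2 : (x : Γ) = g * y * g⁻¹ := hy'.symm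
          rw [h2]
          group
        rw [h1]
        exact hy, by
        have h1 := hK.conj_mem x x.2.2 g⁻¹
        rwa [inv_inv] at h1⟩
      left_inv := fun x => Subtype.ext (by
        change g⁻¹ * (g * x * g⁻¹) * g = x
        group)
      right_inv := fun x => Subtype.ext (by
        change g * (g⁻¹ * x * g) * g⁻¹ = x
        group)
      map_mul' := fun x y => Subtype.ext (by
        change g * (x * y) * g⁻¹ = (g * x * g⁻¹) * (g * y * g⁻¹)
        group) }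
  let T : (↥(conjSub g H ⊓ K) → ℂ) ≃ (↥(H ⊓ K) → ℂ) :=
    Equiv.arrowCongr e.symm.toEquiv (Equiv.refl ℂ)
  have hT : ∀ θ x, T θ x = θ (e x) := fun _ _ => rfl
  have hTs : ∀ θ x, T.symm θ x = θ (e.symm x) := fun _ _ => rfl
  have hirr : ∀ θ, IsIrrChar (T θ) ↔ IsIrrChar θ := by
    intro θ
    constructor
    · intro h
      have h1 := irr_comp e.symm h
      have h2 : (fun x => T θ (e.symm x)) = θ := by
        funext x
        rw [hT, e.apply_symm_apply]
      rwa [h2] at h1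
    · exact fun h => irr_comp e h
  have hPB : ∀ θ, IsIrrChar θ → (PB red B K (T θ) ↔ PB red B K θ) := by
    intro θ hθ
    have : Fintype ↥(conjSub g H ⊓ K) := Fintype.ofFinite _
    refine forall₂_congr fun f hf => ?_
    have h1 := centralValue_comp red e θ (irr_class hθ) (fun x : ↥(conjSub g H ⊓ K) => f x)
      (fun a x => hf.conj a x)
    have h2 : (fun x : ↥(H ⊓ K) => f (e x : ↥(conjSub g H ⊓ K))) = fun x : ↥(H ⊓ K) => f x := by
      funext x
      exact hf.conj g x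
    have h3 : centralValue red (T θ) (fun x : ↥(H ⊓ K) => f x) =
        centralValue red θ (fun x : ↥(conjSub g H ⊓ K) => f x) := by
      rw [← h1, ← h2]
      rfl
    rw [h3]
  have horb : ∀ θ : ↥(conjSub g H ⊓ K) → ℂ, T '' orbF K (conjSub g H) θ = orbF K H (T θ) := by
    intro θ
    ext η
    constructor
    · rintro ⟨_, ⟨a, rfl⟩, rfl⟩
      obtain ⟨b, hb, hb'⟩ := a.2
      refine ⟨⟨b, hb⟩, ?_⟩
      funext x
      rw [hT, hT]
      congr 1
      apply Subtype.ext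
      have hb'' : (a : Γ) = g * b * g⁻¹ := hb'.symm
      change (a : Γ) * (g * x * g⁻¹) * (a : Γ)⁻¹ = g * (b * x * b⁻¹) * g⁻¹
      rw [hb'']
      group
    · rintro ⟨b, rfl⟩
      refine ⟨fun x => θ (cE K (conjSub g H) ⟨g * b * g⁻¹, ⟨b, b.2, rfl⟩⟩ x), ⟨_, rfl⟩, ?_⟩
      funext x
      rw [hT, hT]
      congr 1
      apply Subtype.ext
      change (g * b * g⁻¹ : Γ) * (g * x * g⁻¹) * (g * b * g⁻¹)⁻¹ = g * (b * x * (b : Γ)⁻¹) * g⁻¹
      group
  unfold NO
  refine Nat.card_congr (Equiv.subtypeEquiv (Equiv.Set.congr T) fun O => ?_)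
  have hO : (Equiv.Set.congr T) O = T '' O := rfl
  rw [hO]
  constructor
  · rintro ⟨θ, h1, h2, rfl, h3⟩
    exact ⟨T θ, (hirr θ).2 h1, (hPB θ h1).2 h2, horb θ, ⟨_, h3, rfl⟩⟩
  · rintro ⟨η, h1, h2, h3, h4⟩
    obtain ⟨θ, rfl⟩ := T.surjective η
    refine ⟨θ, (hirr θ).1 h1, (hPB θ ((hirr θ).1 h1)).1 h2, ?_, ?_⟩
    · rw [← horb] at h3
      exact T.injective.image_injective h3
    · obtain ⟨y, hy, hy'⟩ := h4
      have h5 : y = fun x => s (θ x) := by
        apply T.injective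
        rw [hy']
        rfl
      rwa [h5] at hy

/-- **the alternating sum over the classes of chains** -/
theorem cls_sumO {p : ℕ} [Fact p.Prime] [IsAlgClosed F] [CharP F p] {Z : Subgroup Γ}
    (red : integralClosure ℤ ℂ →+* F) (hZ : IsPGroup p Z) (hZn : Z.Normal) (hZK : Z ≤ K)
    (hp : IsPGroup p (Γ ⧸ K))
    {s : ℂ ≃+* ℂ} (hs : ∀ ζ : ℂ, ζ ^ Nat.card Γ = 1 →
      (∃ k : ℕ, ¬ p ∣ k ∧ ζ ^ (k * Monoid.exponent Z) = 1) → s ζ = ζ)
    {B : (Γ → F) → F} (hB : IsBlock B) :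
    ∑ᶠ c : Quotient (chS p Z), (-1) ^ (Quotient.out c).1.ncard *
      (numQ red B (fun _ => True) (chainStabilizer (Quotient.out c).1) : ℤ) =
    ∑ᶠ c : Quotient (chS p Z), (-1) ^ (Quotient.out c).1.ncard *
      (NO K (chainStabilizer (Quotient.out c).1) (PB red B K) (fun θ x => s (θ x)) : ℤ) := by
  have : Fintype {σ : Set (Subgroup Γ) // CH p ⊤ Z σ} := Fintype.ofFinite _
  have h1 := card_mul_cls (p := p) hZn
    (fun H => (numQ red B (fun _ => True) H : ℤ)) (fun g H => by rw [numQ_conj])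
  have h2 := card_mul_cls (p := p) hZn
    (fun H => (NO K H (PB red B K) (fun θ x => s (θ x)) : ℤ)) (fun g H => by rw [NO_conj])
  have h3 := blk_sumO (p := p) (Z := Z) red hZ hZK hp hs hB
  have hpos : (Nat.card Γ : ℤ) ≠ 0 := by exact_mod_cast Nat.card_pos.ne'
  apply mul_left_cancel₀ hpos
  rw [h1, h2, ← sub_eq_zero, ← Finset.sum_sub_distrib]
  have h4 := congrArg Neg.neg h3
  rw [neg_zero, ← Finset.sum_neg_distrib] at h4
  rw [← h4]
  refine Finset.sum_congr rfl fun σ _ => ?_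
  ring

end

end Pool.Agent.Q18.OR
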