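import Pool.Agent.Q18.OR.Chn
import Pool.Agent.Q18.OR.Burn
import Pool.Agent.Q18.K.Cls

/-!
# Orbits of characters of `H ⊓ K` under `H`
-/

open scoped BigOperators Classical

set_option linter.unusedSectionVars false

noncomputable section

namespace Pool.Agent.Q18.OR

open Pool.Agent.Q18.K
open Pool.Agent.Helper884.IC (IsIrrChar irr_finite)
open Pool.Agent.Y63.NV (redC centralValue IsClassFun IsBlock cut InZ)
open Pool.Agent.Y63.KR
open Pool.Agent.Y63.AWC (irr_comp)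
open Pool.Agent.Y286.NV (centralValue_comp irr_class)

section

variable {Γ : Type} [Group Γ] [Finite Γ] {F : Type} [Field F] (K H : Subgroup Γ) [hK : K.Normal]

/-- conjugation by an element of `H` on `H ⊓ K` -/
def cE (h : H) : ↥(H ⊓ K) ≃* ↥(H ⊓ K) where
  toFun x := ⟨h * x * (h : Γ)⁻¹, H.mul_mem (H.mul_mem h.2 x.2.1) (H.inv_mem h.2),
    hK.conj_mem x x.2.2 h⟩
  invFun x := ⟨(h : Γ)⁻¹ * x * h, H.mul_mem (H.mul_mem (H.inv_mem h.2) x.2.1) h.2, by
    have h1 := hK.conj_mem x x.2.2 (h : Γ)⁻¹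
    rwa [inv_inv] at h1⟩
  left_inv x := Subtype.ext (by
    change (h : Γ)⁻¹ * (h * x * (h : Γ)⁻¹) * h = x
    group)
  right_inv x := Subtype.ext (by
    change (h : Γ) * ((h : Γ)⁻¹ * x * h) * (h : Γ)⁻¹ = x
    group)
  map_mul' x y := Subtype.ext (by
    change (h : Γ) * (x * y) * (h : Γ)⁻¹ = (h * x * (h : Γ)⁻¹) * (h * y * (h : Γ)⁻¹)
    group)

theorem cE_coe (h : H) (x : ↥(H ⊓ K)) : (cE K H h x : Γ) = h * x * (h : Γ)⁻¹ := rfl

/-- the irreducible characters of `H ⊓ K` with the property `P` -/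
def XP (P : (↥(H ⊓ K) → ℂ) → Prop) : Type := {θ : ↥(H ⊓ K) → ℂ // IsIrrChar θ ∧ P θ}

/-- the character -/
def vX {P : (↥(H ⊓ K) → ℂ) → Prop} (θ : XP K H P) : ↥(H ⊓ K) → ℂ := θ.1

theorem finXP (P : (↥(H ⊓ K) → ℂ) → Prop) : Finite (XP K H P) := by
  have : Fintype ↥(H ⊓ K) := Fintype.ofFinite _
  have h1 : {χ : ↥(H ⊓ K) → ℂ | IsIrrChar χ}.Finite := irr_finite
  exact (h1.subset fun χ (h : IsIrrChar χ ∧ P χ) => h.1).to_subtype

/-- the property `P` is invariant under conjugation -/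
def InvP (P : (↥(H ⊓ K) → ℂ) → Prop) : Prop :=
  ∀ (h : H) (θ : ↥(H ⊓ K) → ℂ), IsIrrChar θ → P θ → P (fun x => θ (cE K H h x))

variable {K H}

/-- the action of `H` on the characters of `H ⊓ K` -/
@[reducible] def actP {P : (↥(H ⊓ K) → ℂ) → Prop} (hP : InvP K H P) : MulAction H (XP K H P) where
  smul h θ := ⟨fun x => θ.1 (cE K H h⁻¹ x), irr_comp (cE K H h⁻¹) θ.2.1,
    hP h⁻¹ θ.1 θ.2.1 θ.2.2⟩
  one_smul θ := Subtype.ext (funext fun x => congrArg θ.1 (Subtype.ext (by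
    rw [cE_coe]
    simp)))
  mul_smul a b θ := Subtype.ext (funext fun x => congrArg θ.1 (Subtype.ext (by
    rw [cE_coe, cE_coe, cE_coe]
    simp only [Subgroup.coe_mul, Subgroup.coe_inv, mul_inv_rev, inv_inv, mul_assoc])))

/-- the orbit of a character of `H ⊓ K` -/
def orbF (K H : Subgroup Γ) [K.Normal] (θ : ↥(H ⊓ K) → ℂ) : Set (↥(H ⊓ K) → ℂ) :=
  {θ' | ∃ g : H, θ' = fun x => θ (cE K H g x)}

/-- the number of the orbits which are stable under `v` -/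
def NO (K H : Subgroup Γ) [K.Normal] (P : (↥(H ⊓ K) → ℂ) → Prop)
    (v : (↥(H ⊓ K) → ℂ) → ↥(H ⊓ K) → ℂ) : ℕ :=
  Nat.card {O : Set (↥(H ⊓ K) → ℂ) // ∃ θ, IsIrrChar θ ∧ P θ ∧ O = orbF K H θ ∧ v θ ∈ O}

/-- **Burnside's lemma** -/
theorem burn_NO [Fintype H] {P : (↥(H ⊓ K) → ℂ) → Prop} (hP : InvP K H P)
    {v : (↥(H ⊓ K) → ℂ) → ↥(H ⊓ K) → ℂ} (hvi : ∀ θ, IsIrrChar θ → IsIrrChar (v θ))
    (hvP : ∀ θ, IsIrrChar θ → P θ → P (v θ))
    (hv : ∀ (h : H) (θ : ↥(H ⊓ K) → ℂ), v (fun x => θ (cE K H h x)) =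
      fun x => v θ (cE K H h x)) :
    ∑ h : H, Nat.card {θ : ↥(H ⊓ K) → ℂ // IsIrrChar θ ∧ (fun x => v θ (cE K H h x)) = θ ∧ P θ} =
      Nat.card H * NO K H P v := by
  have := finXP K H P
  let _ := actP hP
  let w : XP K H P → XP K H P := fun θ => ⟨v θ.1, hvi θ.1 θ.2.1, hvP θ.1 θ.2.1 θ.2.2⟩
  have hw : ∀ (h : H) (θ : XP K H P), w (h • θ) = h • w θ := by
    intro h θ
    apply Subtype.ext
    exact hv h⁻¹ θ.1
  have h1 := orbit_count (H := H) (X := XP K H P) (v := w) hw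
  have h2 : ∀ h : H, Nat.card {x : XP K H P // h • w x = x} =
      Nat.card {θ : ↥(H ⊓ K) → ℂ // IsIrrChar θ ∧ (fun x => v θ (cE K H h⁻¹ x)) = θ ∧ P θ} := by
    intro h
    refine Nat.card_congr
      { toFun := fun x => ⟨x.1.1, x.1.2.1, congrArg Subtype.val x.2, x.1.2.2⟩
        invFun := fun x => ⟨⟨x.1, x.2.1, x.2.2.2⟩, Subtype.ext x.2.2.1⟩
        left_inv := fun x => rfl
        right_inv := fun x => rfl }
  rw [Finset.sum_congr rfl fun h _ => h2 h] at h1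
  rw [← Equiv.sum_comp (Equiv.inv H)]
  refine Eq.trans (Eq.trans ?_ h1) ?_
  · rfl
  · congr 1
    unfold NO
    have horb : ∀ θ : XP K H P, (vX K H '' MulAction.orbit H θ) = orbF K H θ.1 := by
      intro θ
      ext η
      constructor
      · rintro ⟨_, ⟨g, rfl⟩, rfl⟩
        exact ⟨g⁻¹, rfl⟩
      · rintro ⟨g, rfl⟩
        refine ⟨g⁻¹ • θ, ⟨g⁻¹, rfl⟩, ?_⟩
        change (fun x => θ.1 (cE K H g⁻¹⁻¹ x)) = _
        rw [inv_inv]
    refine Nat.card_congr (Equiv.ofBijective (fun O => ⟨vX K H '' O.1, ?_⟩) ⟨?_, ?_⟩)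
    · obtain ⟨x, hx, hx'⟩ := O.2
      refine ⟨x.1, x.2.1, x.2.2, ?_, ⟨w x, hx', rfl⟩⟩
      rw [hx, horb]
    · intro O O' h
      apply Subtype.ext
      have hinj : Function.Injective (vX K H : XP K H P → _) := Subtype.val_injective
      exact hinj.image_injective (congrArg Subtype.val h)
    · rintro ⟨O, θ, h3, h4, rfl, h5⟩
      let y₀ : XP K H P := ⟨θ, h3, h4⟩
      refine ⟨⟨MulAction.orbit H y₀, y₀, rfl, ?_⟩, ?_⟩
      · have h6 : v θ ∈ vX K H '' MulAction.orbit H y₀ := by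
          rw [horb]
          exact h5
        obtain ⟨y, hy, hy'⟩ := h6
        have h7 : w y₀ = y := Subtype.ext hy'.symm
        rw [h7]
        exact hy
      · apply Subtype.ext
        exact horb _

/-- the orbits which are stable under the iterates -/
theorem NO_iter {v v' : (↥(H ⊓ K) → ℂ) → ↥(H ⊓ K) → ℂ}
    (hv : ∀ (h : H) (θ : ↥(H ⊓ K) → ℂ), v (fun x => θ (cE K H h x)) =
      fun x => v θ (cE K H h x))
    (h : ∃ k : ℕ, ∀ θ, v' θ = v^[k] θ) {θ : ↥(H ⊓ K) → ℂ} (hθ : v θ ∈ orbF K H θ) :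
    v' θ ∈ orbF K H θ := by
  obtain ⟨k, hk⟩ := h
  rw [hk]
  clear hk
  induction k with
  | zero =>
    refine ⟨1, ?_⟩
    funext x
    change θ x = θ _
    congr 1
    apply Subtype.ext
    rw [cE_coe]
    simp
  | succ k ih =>
    rw [Function.iterate_succ_apply']
    obtain ⟨g, hg⟩ := ih
    obtain ⟨a, ha⟩ := hθ
    rw [hg, hv, ha]
    refine ⟨a * g, ?_⟩
    funext x
    change θ (cE K H a (cE K H g x)) = θ (cE K H (a * g) x)
    congr 1
    apply Subtype.ext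
    rw [cE_coe, cE_coe, cE_coe]
    simp only [Subgroup.coe_mul, mul_inv_rev, mul_assoc]

end

end Pool.Agent.Q18.OR
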