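import Pool.Agent.Y564.NV.Clif

/-!
# Characters over a normal subgroup of index `p`: statement
-/

open Pool.Agent.Helper884.IC (IsIrrChar)
open Pool.Agent.Y63.AWC (mult cj)

noncomputable section

namespace Pool.Agent.Q18.OR

/-- JOB CLP: Clifford theory for a normal subgroup `M` of prime index `p` in `X`, for characters
with compatible properties `P`, `Q`: the characters of `X` are those which vanish outside `M` and
the `p` extensions of each invariant character of `M`; each character which vanishes outside `M` lies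
over `p` characters of `M`. -/
def S_CLP : Prop := ∀ (p : ℕ) [Fact p.Prime] (X : Type) [Group X] [Fintype X] (M : Subgroup X)
  [M.Normal], Nat.card X = p * Nat.card M → ∀ (P : (X → ℂ) → Prop) (Q : (M → ℂ) → Prop),
  (∀ (χ : X → ℂ) (θ : M → ℂ), IsIrrChar χ → IsIrrChar θ → mult M χ θ ≠ 0 → (P χ ↔ Q θ)) →
  (Nat.card {χ : X → ℂ // IsIrrChar χ ∧ P χ} =
      Nat.card {χ : X → ℂ // IsIrrChar χ ∧ P χ ∧ ∀ x, x ∉ M → χ x = 0} +
        p * Nat.card {θ : M → ℂ // IsIrrChar θ ∧ Q θ ∧ ∀ x : X, cj M x θ = θ}) ∧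
    p * Nat.card {χ : X → ℂ // IsIrrChar χ ∧ P χ ∧ ∀ x, x ∉ M → χ x = 0} =
      Nat.card {θ : M → ℂ // IsIrrChar θ ∧ Q θ ∧ ¬ ∀ x : X, cj M x θ = θ}

end Pool.Agent.Q18.OR
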