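import Pool.Agent.Q18.OR.Orb

/-!
# The alternating sum of the numbers of stable orbits, for a fixed eigenvalue
-/

open scoped BigOperators Classical

set_option linter.unusedSectionVars false

noncomputable section

namespace Pool.Agent.Q18.OR

open Pool.Agent.Q18.K
open Pool.Agent.Helper884.IC (IsIrrChar irr_finite)
open Pool.Agent.Y63.NV (redC centralValue IsClassFun IsBlock cut InZ)
open Pool.Agent.Y63.KR
open Pool.Agent.Y63.AWC (irr_comp)
open Pool.Agent.Y286.NV (centralValue_comp irr_class)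

section

variable {Γ : Type} [Group Γ] [Finite Γ] {F : Type} [Field F] {K H : Subgroup Γ} [hK : K.Normal]

/-- the power map on functions -/
def pwv (u : (ZMod (Nat.card Γ))ˣ) {N : Subgroup Γ} (θ : N → ℂ) : N → ℂ := fun x => θ (x ^ ex u)

theorem pwv_irr (V : GU Γ) (u : V.U) {N : Subgroup Γ} {θ : N → ℂ} (h : IsIrrChar θ) :
    IsIrrChar (pwv (u : (ZMod (Nat.card Γ))ˣ) θ) := by
  have : Fintype N := Fintype.ofFinite N
  exact (gp_pw V (hxn N) u).irr θ h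

theorem pwv_cE (u : (ZMod (Nat.card Γ))ˣ) (h : H) (θ : ↥(H ⊓ K) → ℂ) :
    pwv u (fun x => θ (cE K H h x)) = fun x => pwv u θ (cE K H h x) := by
  funext x
  change θ (cE K H h (x ^ ex u)) = θ (cE K H h x ^ ex u)
  rw [map_pow]

/-- the value of the central character at `z` is `c` -/
def Pz (red : integralClosure ℤ ℂ →+* F) (z : Γ → F) (c : F) {N : Subgroup Γ} (θ : N → ℂ) : Prop :=
  centralValue red θ (fun x => z x) = c

theorem Pz_inv (red : integralClosure ℤ ℂ →+* F) {z : Γ → F}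
    (hz : ∀ g x : Γ, z (g * x * g⁻¹) = z x) (c : F) : InvP K H (Pz red z c) := by
  intro h θ hθ hP
  have : Fintype ↥(H ⊓ K) := Fintype.ofFinite _
  have h1 := centralValue_comp red (cE K H h) θ (irr_class hθ) (fun x : ↥(H ⊓ K) => z x)
    (fun a x => hz a x)
  have h2 : (fun x : ↥(H ⊓ K) => (fun y : ↥(H ⊓ K) => z y) (cE K H h x)) =
      fun x : ↥(H ⊓ K) => z x := by
    funext x
    exact hz h x
  rw [h2] at h1
  unfold Pz
  rw [h1]
  exact hP

theorem Pz_pwv (red : integralClosure ℤ ℂ →+* F) (V : GU Γ) (u : V.U) {z : Γ → F}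
    (hz : ∀ g x : Γ, z (g * x * g⁻¹) = z x)
    (hz' : ∀ x : Γ, z (x ^ ex (u : (ZMod (Nat.card Γ))ˣ)) = z x) (c : F)
    {N : Subgroup Γ} {θ : N → ℂ} (hθ : IsIrrChar θ) (hP : Pz red z c θ) :
    Pz red z c (pwv (u : (ZMod (Nat.card Γ))ˣ) θ) := by
  have : Fintype N := Fintype.ofFinite _
  have h1 := cv_perm red (gp_pw V (hxn N) u) hθ (f := fun x : N => z x) (fun a x => hz a x)
  have h2 : (fun x : N => (fun y : N => z y) (pw (hxn N) (u : (ZMod (Nat.card Γ))ˣ) x)) =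
      fun x : N => z x := by
    funext x
    exact hz' x
  rw [h2] at h1
  unfold Pz
  rw [← hP, ← h1]
  rfl

/-- the number of the pairs `(g, θ)` with `θ` fixed by the composition of `g` and the power map -/
theorem sum_Fnum (red : integralClosure ℤ ℂ →+* F) (V : GU Γ) (u : V.U) [Fintype H] {z : Γ → F}
    (hz : ∀ g x : Γ, z (g * x * g⁻¹) = z x)
    (hz' : ∀ x : Γ, z (x ^ ex (u : (ZMod (Nat.card Γ))ˣ)) = z x) (c : F) :
    ∑ g : H, Fnum (PAU V) red (H ⊓ K) ((g : Γ), u) z c =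
      Nat.card H * NO K H (Pz red z c) (pwv (u : (ZMod (Nat.card Γ))ˣ)) := by
  rw [← burn_NO (Pz_inv red hz c) (fun θ h => pwv_irr V u h)
    (fun θ h h' => Pz_pwv red V u hz hz' c h h') (fun h θ => pwv_cE _ h θ)]
  refine Finset.sum_congr rfl fun g _ => ?_
  unfold Fnum
  refine Nat.card_congr (Equiv.subtypeEquivRight fun θ => ?_)
  refine and_congr_right fun hθ => and_congr_left fun _ => ?_
  constructor
  · intro h
    funext x
    refine h x _ ?_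
    rw [PAU_a]
    change ((cE K H g x : ↥(H ⊓ K)) : Γ) ^ ex (u : (ZMod (Nat.card Γ))ˣ) = _
    rw [cE_coe, conj_pow]
  · intro h x y hxy
    have h1 := congrFun h x
    rw [← h1]
    change θ y = θ (cE K H g x ^ ex (u : (ZMod (Nat.card Γ))ˣ))
    congr 1
    apply Subtype.ext
    rw [hxy, PAU_a, Subgroup.coe_pow, cE_coe, conj_pow]

/-- powers of the power map -/
theorem pwv_iter (u : (ZMod (Nat.card Γ))ˣ) {N : Subgroup Γ} (k : ℕ) (θ : N → ℂ) :
    (pwv u)^[k] θ = pwv (u ^ k) θ := by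
  induction k with
  | zero =>
    funext x
    change θ x = θ (x ^ ex (u ^ 0))
    rw [pow_zero, ex_one (hxn N x)]
  | succ k ih =>
    rw [Function.iterate_succ_apply', ih]
    funext x
    change θ ((x ^ ex u) ^ ex (u ^ k)) = θ (x ^ ex (u ^ (k + 1)))
    rw [← ex_mul (hxn N x), pow_succ, mul_comm]

theorem NO_zp {P : (↥(H ⊓ K) → ℂ) → Prop} {u w : (ZMod (Nat.card Γ))ˣ}
    (h : Subgroup.zpowers u = Subgroup.zpowers w) : NO K H P (pwv u) = NO K H P (pwv w) := by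
  have : Finite (ZMod (Nat.card Γ))ˣ := by
    have := ne0 (Γ := Γ)
    infer_instance
  have key : ∀ {u w : (ZMod (Nat.card Γ))ˣ}, w ∈ Subgroup.zpowers u → ∀ θ : ↥(H ⊓ K) → ℂ,
      pwv u θ ∈ orbF K H θ → pwv w θ ∈ orbF K H θ := by
    intro u w hw θ hθ
    rw [← mem_powers_iff_mem_zpowers] at hw
    obtain ⟨k, rfl⟩ := hw
    exact NO_iter (fun h θ => pwv_cE u h θ) ⟨k, fun θ => (pwv_iter u k θ).symm⟩ hθ
  unfold NO
  refine Nat.card_congr (Equiv.subtypeEquivRight fun O => ?_)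
  refine exists_congr fun θ => and_congr_right fun _ => and_congr_right fun _ => ?_
  constructor
  · rintro ⟨rfl, h1⟩
    exact ⟨rfl, key (by rw [h]; exact Subgroup.mem_zpowers w) θ h1⟩
  · rintro ⟨rfl, h1⟩
    exact ⟨rfl, key (by rw [← h]; exact Subgroup.mem_zpowers u) θ h1⟩

variable {V : GU Γ} {p : ℕ} {Z : Subgroup Γ}

/-- the sum for a subgroup of the group of the power maps -/
theorem sub_sumO [Fact p.Prime] [IsAlgClosed F] [CharP F p]
    (red : integralClosure ℤ ℂ →+* F) (hZ : IsPGroup p Z) [hZn : Z.Normal]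
    (hKZ : ∀ x : Γ, (∃ k : ℕ, ¬ p ∣ k ∧ x ^ k ∈ Z) → x ∈ K)
    (hV : ∀ (u : V.U) (x : Γ), (∃ k : ℕ, ¬ p ∣ k ∧ x ^ k ∈ Z) →
      x ^ ex (u : (ZMod (Nat.card Γ))ˣ) = x)
    {z : Γ → F} (hz : ∀ g x : Γ, z (g * x * g⁻¹) = z x)
    (hz' : ∀ (u : V.U) (x : Γ), z (x ^ ex (u : (ZMod (Nat.card Γ))ˣ)) = z x)
    (hzK : ∀ x, x ∉ K → z x = 0)
    (c : F) [Fintype {σ : Set (Subgroup Γ) // CH p ⊤ Z σ}] (V' : Subgroup V.U) [Fintype V'] :
    ∑ v : V', ∑ σ : {σ : Set (Subgroup Γ) // CH p ⊤ Z σ}, (-1) ^ σ.1.ncard *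
      ((Nat.card (chainStabilizer σ.1) : ℤ) *
        ((NO K (chainStabilizer σ.1) (Pz red z c) (pwv ((v : V.U) : (ZMod (Nat.card Γ))ˣ)) : ℤ) -
          Fx red (chainStabilizer σ.1) 1 z c)) = 0 := by
  have hfin : ∀ σ : {σ : Set (Subgroup Γ) // CH p ⊤ Z σ},
      Fintype (MC (PAU V) (MV V V') σ.1) := fun _ => Fintype.ofFinite _
  have h1 := alt_chK (p := p) (G := ⊤) (Z := Z) (K := K) red (A := PAU V) (A' := PAC V) rfl
    (adm_U V V')
    (adm_C V V') hK hZ le_top (by rw [Subgroup.normalizer_eq_top]) (fun m _ => by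
      rw [Subgroup.normalizer_eq_top]; exact Subgroup.mem_top _) hKZ (fun m _ x _ hx => by
      rw [PAU_a, PAC_a, hV m.2 x hx]) (z := z)
    (fun m _ x => by rw [PAU_a, hz, hz' m.2]) (fun m _ x => by rw [PAC_a, hz]) hzK c
  have hcut : ∀ σ : Set (Subgroup Γ), ∀ (N : Subgroup Γ) (_ : N ≤ NS ⊤ σ) (χ : N → ℂ),
      centralValue red χ (fun x => cut z (NS ⊤ σ) x) = centralValue red χ (fun x => z x) := by
    intro σ N hN χ
    congr 1
    funext x
    unfold cut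
    rw [if_pos (hN x.2)]
  have hFx : ∀ (σ : Set (Subgroup Γ)) (u : (ZMod (Nat.card Γ))ˣ),
      Fx red (NS ⊤ σ) u (cut z (NS ⊤ σ)) c = Fx red (chainStabilizer σ) u z c := by
    intro σ u
    have h2 : Fx red (NS ⊤ σ) u (cut z (NS ⊤ σ)) c = Fx red (NS ⊤ σ) u z c := by
      unfold Fx
      simp only [hcut σ _ le_rfl]
    rw [h2, NS_top]
  have hFn : ∀ (σ : Set (Subgroup Γ)) (m : Γ × V.U),
      Fnum (PAU V) red (NS ⊤ σ ⊓ K) m (cut z (NS ⊤ σ)) c =
        Fnum (PAU V) red (chainStabilizer σ ⊓ K) m z c := by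
    intro σ m
    have h2 : Fnum (PAU V) red (NS ⊤ σ ⊓ K) m (cut z (NS ⊤ σ)) c =
        Fnum (PAU V) red (NS ⊤ σ ⊓ K) m z c := by
      unfold Fnum
      simp only [hcut σ _ inf_le_left]
    rw [h2, NS_top]
  have e1 : ∀ σ : {σ : Set (Subgroup Γ) // CH p ⊤ Z σ},
      ∑ m : MC (PAU V) (MV V V') σ.1,
        (Fnum (PAU V) red (NS ⊤ σ.1 ⊓ K) m (cut z (NS ⊤ σ.1)) c : ℤ) =
      (Nat.card (chainStabilizer σ.1) : ℤ) * ∑ v : V',
        (NO K (chainStabilizer σ.1) (Pz red z c) (pwv ((v : V.U) : (ZMod (Nat.card Γ))ˣ)) : ℤ) := by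
    intro σ
    have : Fintype (chainStabilizer σ.1) := Fintype.ofFinite _
    rw [Finset.mul_sum]
    have h3 : ∀ v : V', (Nat.card (chainStabilizer σ.1) : ℤ) *
        (NO K (chainStabilizer σ.1) (Pz red z c) (pwv ((v : V.U) : (ZMod (Nat.card Γ))ˣ)) : ℤ) =
        ∑ g : chainStabilizer σ.1,
          (Fnum (PAU V) red (chainStabilizer σ.1 ⊓ K) ((g : Γ), (v : V.U)) z c : ℤ) := by
      intro v
      rw [← Nat.cast_mul, ← sum_Fnum red V (v : V.U) hz (hz' v) c, Nat.cast_sum]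
    rw [Finset.sum_congr rfl fun v _ => h3 v, Finset.sum_comm, ← Fintype.sum_prod_type']
    refine Fintype.sum_equiv (mcEquiv V' σ.1) _ _ fun m => ?_
    rw [hFn]
    rfl
  have e2 : ∀ σ : {σ : Set (Subgroup Γ) // CH p ⊤ Z σ},
      ∑ m : MC (PAU V) (MV V V') σ.1, (Fnum (PAC V) red (NS ⊤ σ.1) m (cut z (NS ⊤ σ.1)) c : ℤ) =
      (Nat.card (chainStabilizer σ.1) : ℤ) * ∑ v : V', (Fx red (chainStabilizer σ.1) 1 z c : ℤ) := by
    intro σ
    rw [← sum_mc V' σ.1 (fun _ => (Fx red (chainStabilizer σ.1) 1 z c : ℤ))]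
    refine Finset.sum_congr rfl fun m _ => ?_
    rw [Fnum_C red (NS ⊤ σ.1) (m := m.1) (by rw [NS_top]; exact m.2.2), hFx]
  rw [Finset.sum_congr rfl fun σ _ => congrArg (fun t : ℤ => (-1) ^ σ.1.ncard * t) (e1 σ),
    Finset.sum_congr rfl fun σ _ => congrArg (fun t : ℤ => (-1) ^ σ.1.ncard * t) (e2 σ),
    ← sub_eq_zero, ← Finset.sum_sub_distrib] at h1
  rw [Finset.sum_comm]
  refine Eq.trans ?_ h1
  refine Finset.sum_congr rfl fun σ _ => ?_
  rw [← Finset.mul_sum, ← Finset.mul_sum, Finset.sum_sub_distrib]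
  ring

/-- the alternating sum for one power map -/
theorem pow_sumO [Fact p.Prime] [IsAlgClosed F] [CharP F p]
    (red : integralClosure ℤ ℂ →+* F) (hZ : IsPGroup p Z) [hZn : Z.Normal]
    (hKZ : ∀ x : Γ, (∃ k : ℕ, ¬ p ∣ k ∧ x ^ k ∈ Z) → x ∈ K)
    (hV : ∀ (u : V.U) (x : Γ), (∃ k : ℕ, ¬ p ∣ k ∧ x ^ k ∈ Z) →
      x ^ ex (u : (ZMod (Nat.card Γ))ˣ) = x)
    {z : Γ → F} (hz : ∀ g x : Γ, z (g * x * g⁻¹) = z x)
    (hz' : ∀ (u : V.U) (x : Γ), z (x ^ ex (u : (ZMod (Nat.card Γ))ˣ)) = z x)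
    (hzK : ∀ x, x ∉ K → z x = 0)
    (c : F) [Fintype {σ : Set (Subgroup Γ) // CH p ⊤ Z σ}] (u : V.U) :
    ∑ σ : {σ : Set (Subgroup Γ) // CH p ⊤ Z σ}, (-1) ^ σ.1.ncard *
      ((Nat.card (chainStabilizer σ.1) : ℤ) *
        ((NO K (chainStabilizer σ.1) (Pz red z c) (pwv (u : (ZMod (Nat.card Γ))ˣ)) : ℤ) -
          Fx red (chainStabilizer σ.1) 1 z c)) = 0 := by
  have hU : Finite V.U := by
    have := ne0 (Γ := Γ)
    infer_instance
  refine cyc_zero (fun u : V.U => ∑ σ : {σ : Set (Subgroup Γ) // CH p ⊤ Z σ},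
    (-1) ^ σ.1.ncard * ((Nat.card (chainStabilizer σ.1) : ℤ) *
        ((NO K (chainStabilizer σ.1) (Pz red z c) (pwv (u : (ZMod (Nat.card Γ))ˣ)) : ℤ) -
          Fx red (chainStabilizer σ.1) 1 z c))) ?_ ?_ u
  · intro V' _
    exact sub_sumO red hZ hKZ hV hz hz' hzK c V'
  · intro u w huw
    refine Finset.sum_congr rfl fun σ _ => ?_
    rw [NO_zp (u := (u : (ZMod (Nat.card Γ))ˣ)) (w := (w : (ZMod (Nat.card Γ))ˣ))]
    have h1 := congrArg (Subgroup.map V.U.subtype) huw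
    rw [MonoidHom.map_zpowers, MonoidHom.map_zpowers] at h1
    exact h1

end

end Pool.Agent.Q18.OR
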