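import Pool.Agent.Q18.OR.Van

/-!
# The alternating sum of the numbers of the characters which vanish outside `K`
-/

open scoped BigOperators Classical

set_option linter.unusedSectionVars false

noncomputable section

namespace Pool.Agent.Q18.OR

open Pool.Agent.Q18.K
open Pool.Agent.Helper884.IC (IsIrrChar irr_finite)
open Pool.Agent.Y63.NV (redC centralValue IsClassFun IsBlock cut InZ)
open Pool.Agent.Y63.KR
open Pool.Agent.Y63.AWC (irr_comp mult cj)
open Pool.Agent.Y286.NV (centralValue_comp irr_class)

section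

variable {Γ : Type} [Group Γ] [Finite Γ] {F : Type} [Field F] {K : Subgroup Γ} [hK : K.Normal]

theorem PB_inv (red : integralClosure ℤ ℂ →+* F) (B : (Γ → F) → F) {H : Subgroup Γ} :
    InvP K H (PB red B K) := by
  intro h θ hθ hP f hf
  exact Pz_inv (K := K) (H := H) red hf.conj (B f) h θ hθ (hP f hf)

/-- the number of the characters which vanish outside `K` -/
def numV (red : integralClosure ℤ ℂ →+* F) (B : (Γ → F) → F) (K H : Subgroup Γ) : ℕ :=
  Nat.card {χ : H → ℂ // IsIrrChar χ ∧ (∀ x : H, (x : Γ) ∉ K → χ x = 0) ∧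
    ∀ f : Γ → F, IsClassFun f → centralValue red χ (fun x => f x) = B f}

theorem van_sig (hC : S_CLP) {p : ℕ} [hp : Fact p.Prime] [IsAlgClosed F] [CharP F p]
    (red : integralClosure ℤ ℂ →+* F) (hidx : K.index = p) {B : (Γ → F) → F} (hB : IsBlock B)
    {σ : Set (Subgroup Γ)} (h1 : IsChain (· ≤ ·) σ) (h2 : ∀ P ∈ σ, IsPGroup p P) :
    ∃ i : ℕ, numQ red B (fun _ => True) (chainStabilizer σ) =
        numV red B K (chainStabilizer σ) + p * i ∧
      NO K (chainStabilizer σ) (PB red B K) id = numV red B K (chainStabilizer σ) + i := by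
  set H := chainStabilizer σ with hH
  have hpK : IsPGroup p (Γ ⧸ K) := by
    rw [IsPGroup.iff_card]
    exact ⟨1, by rw [pow_one, ← hidx]; rfl⟩
  have hblk : ∀ χ : H → ℂ, IsIrrChar χ → ((∀ f : Γ → F, IsClassFun f →
      centralValue red χ (fun x => f x) = B f) ↔ PB red B K χ) := by
    intro χ hχ
    constructor
    · exact fun h f hf => h f hf.conj
    · intro h
      exact blk_ext p _ K le_rfl hpK (lin_block (p := p) red h1 h2 hχ) hB h
  by_cases hHK : H ≤ K
  · refine ⟨0, ?_, ?_⟩
    · rw [mul_zero, add_zero]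
      unfold numQ numV
      refine Nat.card_congr (Equiv.subtypeEquivRight fun χ => and_congr_right fun _ =>
        and_congr_left fun _ => ?_)
      exact ⟨fun _ x hx => absurd (hHK x.2) hx, fun _ => trivial⟩
    · rw [add_zero, NO_le hHK (PB_inv red B)]
      have key : ∀ N : Subgroup Γ, N = H → Nat.card {θ : N → ℂ // IsIrrChar θ ∧ PB red B K θ} =
          numV red B K H := by
        rintro N rfl
        unfold numV
        refine Nat.card_congr (Equiv.subtypeEquivRight fun χ => and_congr_right fun hχ => ?_)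
        rw [← hblk χ hχ]
        exact ⟨fun h => ⟨fun x hx => absurd (hHK x.2) hx, h⟩, fun h => h.2⟩
      exact key _ (inf_eq_left.2 hHK)
  · have hcard : Nat.card H = p * Nat.card ↥(H ⊓ K) := by
      have h3 : K.relIndex H ∣ K.index := Subgroup.relIndex_dvd_index_of_normal K H
      have h4 : (K.subgroupOf H).index * Nat.card (K.subgroupOf H) = Nat.card H := by
        rw [mul_comm]
        exact Subgroup.card_mul_index _
      have h5 : Nat.card (K.subgroupOf H) = Nat.card ↥(H ⊓ K) := Nat.card_congr (eM K H).toEquiv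
      rw [hidx] at h3
      rcases (Nat.dvd_prime hp.out).1 h3 with h6 | h6
      · exact absurd (Subgroup.relIndex_eq_one.1 h6) hHK
      · rw [← h4, h5]
        congr 1
    obtain ⟨i, h3, h4⟩ := van_count hC hcard (P := fun χ => ∀ f : Γ → F, IsClassFun f →
      centralValue red χ (fun x => f x) = B f) (PB_inv red B) (by
        intro _ _ χ θ hχ hθ hm
        rw [hblk χ hχ]
        have h5 : ∀ z : Γ → F, InZ K z → centralValue red χ (fun x => z x) =
            centralValue red θ (fun x => z x) := by
          intro z hz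
          have hn : (K.subgroupOf H).Normal := inferInstance
          have : Fintype ↥(H ⊓ K) := Fintype.ofFinite _
          have h6 := Pool.Agent.Y809.NV.cv_eq (K.subgroupOf H) red hχ
            (irr_comp (eM K H) hθ) hm
            (z := fun x : H => z x) ⟨fun g x => hz.conj g x, fun x hx => hz.supp x hx⟩
          rw [h6]
          have h7 := centralValue_comp red (eM K H) θ (irr_class hθ)
            (fun x : ↥(H ⊓ K) => z x) (fun a x => hz.conj a x)
          rw [← h7]
          rfl
        exact forall₂_congr fun f hf => by rw [h5 f hf])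
    have h5 : Nat.card {χ : H → ℂ // IsIrrChar χ ∧ (∀ f : Γ → F, IsClassFun f →
        centralValue red χ (fun x => f x) = B f) ∧ ∀ x : H, (x : Γ) ∉ K → χ x = 0} =
        numV red B K H := by
      unfold numV
      exact Nat.card_congr (Equiv.subtypeEquivRight fun χ => and_congr_right fun _ => and_comm)
    have h6 : Nat.card {χ : H → ℂ // IsIrrChar χ ∧ ∀ f : Γ → F, IsClassFun f →
        centralValue red χ (fun x => f x) = B f} = numQ red B (fun _ => True) H := by
      unfold numQ
      exact Nat.card_congr (Equiv.subtypeEquivRight fun χ => and_congr_right fun _ =>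
        ⟨fun h => ⟨trivial, h⟩, fun h => h.2⟩)
    rw [h5, h6] at h3
    rw [h5] at h4
    exact ⟨i, h3, h4⟩

/-- conjugate subgroups -/
theorem numV_conj (red : integralClosure ℤ ℂ →+* F) (B : (Γ → F) → F) (g : Γ)
    (H : Subgroup Γ) : numV red B K (conjSub g H) = numV red B K H := by
  have : Fintype H := Fintype.ofFinite _
  have : Fintype ↥(conjSub g H) := Fintype.ofFinite _
  let e : H ≃* conjSub g H := (MulAut.conj g).subgroupMap H
  have he : ∀ x : H, ((e x : conjSub g H) : Γ) = g * x * g⁻¹ := fun x => rfl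
  let T : (conjSub g H → ℂ) ≃ (H → ℂ) := Equiv.arrowCongr e.symm.toEquiv (Equiv.refl ℂ)
  have hT : ∀ θ x, T θ x = θ (e x) := fun _ _ => rfl
  unfold numV
  refine Nat.card_congr (Equiv.subtypeEquiv T fun χ => ?_)
  have hirr : IsIrrChar (T χ) ↔ IsIrrChar χ := by
    constructor
    · intro h
      have h1 := irr_comp e.symm h
      have h2 : (fun x => T χ (e.symm x)) = χ := by
        funext x
        rw [hT, e.apply_symm_apply]
      rwa [h2] at h1
    · exact fun h => irr_comp e h
  rw [hirr]
  refine and_congr_right fun hχ => and_congr ?_ ?_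
  · constructor
    · intro h x hx
      rw [hT]
      apply h
      rw [he]
      intro h1
      apply hx
      have h2 := hK.conj_mem _ h1 g⁻¹
      have e3 : g⁻¹ * (g * (x : Γ) * g⁻¹) * g⁻¹⁻¹ = x := by group
      rwa [e3] at h2
    · intro h x hx
      obtain ⟨y, rfl⟩ := e.surjective x
      have h1 := h y fun h2 => hx (by
        rw [he]
        exact hK.conj_mem _ h2 g)
      rwa [hT] at h1
  · refine forall₂_congr fun f hf => ?_
    have h1 := centralValue_comp red e χ (irr_class hχ) (fun x : conjSub g H => f x)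
      (fun a x => hf a x)
    have h2 : (fun x : H => f (e x : conjSub g H)) = fun x : H => f x := by
      funext x
      exact hf g x
    have h3 : centralValue red (T χ) (fun x : H => f x) =
        centralValue red χ (fun x : conjSub g H => f x) := by
      rw [← h1, ← h2]
      rfl
    rw [h3]

/-- **only the characters which vanish outside `K` contribute** -/
theorem van_sum (hC : S_CLP) {p : ℕ} [hp : Fact p.Prime] [IsAlgClosed F] [CharP F p]
    {Z : Subgroup Γ} (red : integralClosure ℤ ℂ →+* F) (hZ : IsPGroup p Z) (hZn : Z.Normal)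
    (hZK : Z ≤ K) (hidx : K.index = p) {B : (Γ → F) → F} (hB : IsBlock B) :
    ∑ᶠ c : Quotient (chS p Z), (-1) ^ (Quotient.out c).1.ncard *
      (numQ red B (fun _ => True) (chainStabilizer (Quotient.out c).1) : ℤ) =
    ∑ᶠ c : Quotient (chS p Z), (-1) ^ (Quotient.out c).1.ncard *
      (numV red B K (chainStabilizer (Quotient.out c).1) : ℤ) := by
  have : Fintype {σ : Set (Subgroup Γ) // CH p ⊤ Z σ} := Fintype.ofFinite _
  have hpK : IsPGroup p (Γ ⧸ K) := by
    rw [IsPGroup.iff_card]
    exact ⟨1, by rw [pow_one, ← hidx]; rfl⟩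
  have h1 := card_mul_cls (p := p) hZn
    (fun H => (numQ red B (fun _ => True) H : ℤ)) (fun g H => by rw [numQ_conj])
  have h2 := card_mul_cls (p := p) hZn
    (fun H => (numV red B K H : ℤ)) (fun g H => by rw [numV_conj])
  have h3 := blk_sumO (p := p) (Z := Z) red hZ hZK hpK (s := RingEquiv.refl ℂ)
    (fun ζ _ _ => rfl) hB
  have h4 : ∀ σ : {σ : Set (Subgroup Γ) // CH p ⊤ Z σ}, ∃ i : ℕ,
      numQ red B (fun _ => True) (chainStabilizer σ.1) =
        numV red B K (chainStabilizer σ.1) + p * i ∧
      NO K (chainStabilizer σ.1) (PB red B K) id = numV red B K (chainStabilizer σ.1) + i :=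
    fun σ => van_sig hC red hidx hB σ.2.chain σ.2.isp
  choose i hi1 hi2 using h4
  have hid : ∀ σ : {σ : Set (Subgroup Γ) // CH p ⊤ Z σ},
      NO K (chainStabilizer σ.1) (PB red B K) (fun θ x => RingEquiv.refl ℂ (θ x)) =
        NO K (chainStabilizer σ.1) (PB red B K) id := fun σ => rfl
  have h5 : ((p : ℤ) - 1) * ∑ σ : {σ : Set (Subgroup Γ) // CH p ⊤ Z σ}, (-1) ^ σ.1.ncard *
      ((Nat.card (chainStabilizer σ.1) : ℤ) * (i σ : ℤ)) = 0 := by
    rw [← neg_eq_zero, ← h3, Finset.mul_sum, ← Finset.sum_neg_distrib]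
    refine Finset.sum_congr rfl fun σ _ => ?_
    rw [hid, hi1, hi2]
    push_cast
    ring
  have hp1 : ((p : ℤ) - 1) ≠ 0 := by
    have := hp.out.one_lt
    omega
  have h6 := (mul_eq_zero.1 h5).resolve_left hp1
  have hpos : (Nat.card Γ : ℤ) ≠ 0 := by exact_mod_cast Nat.card_pos.ne'
  apply mul_left_cancel₀ hpos
  rw [h1, h2, ← sub_eq_zero, ← Finset.sum_sub_distrib]
  have h7 : ∀ σ : {σ : Set (Subgroup Γ) // CH p ⊤ Z σ},
      (-1 : ℤ) ^ σ.1.ncard * ((Nat.card (chainStabilizer σ.1) : ℤ) *
        (numQ red B (fun _ => True) (chainStabilizer σ.1) : ℤ)) -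
      (-1) ^ σ.1.ncard * ((Nat.card (chainStabilizer σ.1) : ℤ) *
        (numV red B K (chainStabilizer σ.1) : ℤ)) =
      (p : ℤ) * ((-1) ^ σ.1.ncard * ((Nat.card (chainStabilizer σ.1) : ℤ) * (i σ : ℤ))) := by
    intro σ
    rw [hi1]
    push_cast
    ring
  rw [Finset.sum_congr rfl fun σ _ => h7 σ, ← Finset.mul_sum, h6, mul_zero]

end

end Pool.Agent.Q18.OR
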