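import Pool.Agent.Q18.OR.Fn
import Pool.Agent.Q18.OR.StmC

/-!
# Characters which vanish outside a normal subgroup of index `p`
-/

open scoped BigOperators Classical

set_option linter.unusedSectionVars false

noncomputable section

namespace Pool.Agent.Q18.OR

open Pool.Agent.Q18.K
open Pool.Agent.Helper884.IC (IsIrrChar irr_finite)
open Pool.Agent.Y63.NV (redC centralValue IsClassFun IsBlock cut InZ)
open Pool.Agent.Y63.KR
open Pool.Agent.Y63.AWC (irr_comp mult cj)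
open Pool.Agent.Y286.NV (centralValue_comp irr_class)

section

variable {Γ : Type} [Group Γ] [Finite Γ] {K H : Subgroup Γ} [hK : K.Normal]

theorem inner_fix {θ : ↥(H ⊓ K) → ℂ} (hθ : IsIrrChar θ) (h : H) (hh : (h : Γ) ∈ K) :
    (fun x => θ (cE K H h x)) = θ := by
  funext x
  have h1 : cE K H h x = (⟨h, h.2, hh⟩ : ↥(H ⊓ K)) * x * (⟨h, h.2, hh⟩ : ↥(H ⊓ K))⁻¹ :=
    Subtype.ext rfl
  rw [h1, irr_conj hθ]

theorem cE_mul (a b : H) (θ : ↥(H ⊓ K) → ℂ) :
    (fun x => θ (cE K H (a * b) x)) =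
      fun x => (fun y => θ (cE K H a y)) (cE K H b x) := by
  funext x
  congr 1
  apply Subtype.ext
  rw [cE_coe, cE_coe, cE_coe]
  simp only [Subgroup.coe_mul, mul_inv_rev, mul_assoc]

/-- the stabiliser of a character -/
def stF (K H : Subgroup Γ) [K.Normal] (θ : ↥(H ⊓ K) → ℂ) : Subgroup H where
  carrier := {h | (fun x => θ (cE K H h x)) = θ}
  one_mem' := by
    funext x
    congr 1
    apply Subtype.ext
    rw [cE_coe]
    simp
  mul_mem' := by
    intro a b ha hb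
    change (fun x => θ (cE K H (a * b) x)) = θ
    rw [cE_mul, show (fun y => θ (cE K H a y)) = θ from ha]
    exact hb
  inv_mem' := by
    intro a ha
    have h1 := cE_mul (K := K) a a⁻¹ θ
    rw [show (fun y => θ (cE K H a y)) = θ from ha, mul_inv_cancel] at h1
    change (fun x => θ (cE K H a⁻¹ x)) = θ
    rw [← h1]
    funext x
    congr 1
    apply Subtype.ext
    rw [cE_coe]
    simp

theorem mem_stF {θ : ↥(H ⊓ K) → ℂ} {h : H} :
    h ∈ stF K H θ ↔ (fun x => θ (cE K H h x)) = θ := Iff.rfl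

/-- if the index is prime the stabiliser is small or everything -/
theorem stF_top {p : ℕ} [hp : Fact p.Prime] (hidx : Nat.card H = p * Nat.card ↥(H ⊓ K))
    {θ : ↥(H ⊓ K) → ℂ} (hθ : IsIrrChar θ) {h : H} (hh : (h : Γ) ∉ K)
    (hst : (fun x => θ (cE K H h x)) = θ) (g : H) : (fun x => θ (cE K H g x)) = θ := by
  rw [← mem_stF]
  have hle : K.subgroupOf H ≤ stF K H θ := fun x hx => inner_fix hθ x hx
  have hcM : Nat.card (K.subgroupOf H) = Nat.card ↥(H ⊓ K) :=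
    Nat.card_congr
      { toFun := fun x => ⟨x.1.1, x.1.2, x.2⟩
        invFun := fun x => ⟨⟨x.1, x.2.1⟩, x.2.2⟩
        left_inv := fun _ => rfl
        right_inv := fun _ => rfl }
  have h1 : Nat.card ↥(H ⊓ K) ∣ Nat.card (stF K H θ) := by
    rw [← hcM]
    exact Subgroup.card_dvd_of_le hle
  obtain ⟨a, ha⟩ := h1
  have h2 : Nat.card (stF K H θ) ∣ Nat.card H := Subgroup.card_subgroup_dvd_card _
  rw [hidx, ha, mul_comm p] at h2
  have h3 : a ∣ p := Nat.dvd_of_mul_dvd_mul_left Nat.card_pos h2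
  rcases (Nat.dvd_prime hp.out).1 h3 with h4 | h4
  · exfalso
    rw [h4, mul_one, ← hcM] at ha
    have h5 : K.subgroupOf H = stF K H θ := Subgroup.eq_of_le_of_card_ge hle ha.le
    apply hh
    have h6 : h ∈ K.subgroupOf H := by
      rw [h5]
      exact hst
    exact h6
  · have h5 : stF K H θ = ⊤ := by
      apply Subgroup.eq_top_of_card_eq
      rw [ha, h4, hidx, mul_comm]
    rw [h5]
    exact Subgroup.mem_top g

/-- the number of the orbits -/
theorem NO_count {p : ℕ} [hp : Fact p.Prime] (hidx : Nat.card H = p * Nat.card ↥(H ⊓ K))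
    {P : (↥(H ⊓ K) → ℂ) → Prop} (hP : InvP K H P) :
    p * NO K H P id =
      p * Nat.card {θ : ↥(H ⊓ K) → ℂ // IsIrrChar θ ∧ P θ ∧
        ∀ g : H, (fun x => θ (cE K H g x)) = θ} +
      Nat.card {θ : ↥(H ⊓ K) → ℂ // IsIrrChar θ ∧ P θ ∧
        ¬ ∀ g : H, (fun x => θ (cE K H g x)) = θ} := by
  have : Fintype H := Fintype.ofFinite H
  have : Fintype ↥(H ⊓ K) := Fintype.ofFinite _
  have hf1 : {θ : ↥(H ⊓ K) → ℂ | IsIrrChar θ}.Finite := irr_finite
  set I := Nat.card {θ : ↥(H ⊓ K) → ℂ // IsIrrChar θ ∧ P θ ∧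
        ∀ g : H, (fun x => θ (cE K H g x)) = θ} with hI
  set n := Nat.card {θ : ↥(H ⊓ K) → ℂ // IsIrrChar θ ∧ P θ ∧
        ¬ ∀ g : H, (fun x => θ (cE K H g x)) = θ} with hn
  have h1 := burn_NO (K := K) (H := H) hP (v := id) (fun θ h => h) (fun θ _ h => h)
    (fun h θ => rfl)
  have hall : Nat.card {θ : ↥(H ⊓ K) → ℂ // IsIrrChar θ ∧ P θ} = I + n := by
    rw [hI, hn]
    have e1 : Nat.card {θ : ↥(H ⊓ K) → ℂ // IsIrrChar θ ∧ P θ} =
        {θ : ↥(H ⊓ K) → ℂ | IsIrrChar θ ∧ P θ}.ncard := Nat.card_coe_set_eq _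
    have e2 : Nat.card {θ : ↥(H ⊓ K) → ℂ // IsIrrChar θ ∧ P θ ∧
        ∀ g : H, (fun x => θ (cE K H g x)) = θ} = {θ : ↥(H ⊓ K) → ℂ | IsIrrChar θ ∧ P θ ∧
        ∀ g : H, (fun x => θ (cE K H g x)) = θ}.ncard := Nat.card_coe_set_eq _
    have e3 : Nat.card {θ : ↥(H ⊓ K) → ℂ // IsIrrChar θ ∧ P θ ∧
        ¬ ∀ g : H, (fun x => θ (cE K H g x)) = θ} = {θ : ↥(H ⊓ K) → ℂ | IsIrrChar θ ∧ P θ ∧
        ¬ ∀ g : H, (fun x => θ (cE K H g x)) = θ}.ncard := Nat.card_coe_set_eq _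
    rw [e1, e2, e3, ← Set.ncard_union_eq ?_ (hf1.subset fun χ h => h.1)
      (hf1.subset fun χ h => h.1)]
    · congr 1
      ext θ
      simp only [Set.mem_ofPred_eq, Set.mem_union]
      tauto
    · rw [Set.disjoint_left]
      rintro χ ⟨_, _, h⟩ ⟨_, _, h'⟩
      exact h' h
  have h2 : ∀ h : H, Nat.card {θ : ↥(H ⊓ K) → ℂ // IsIrrChar θ ∧
      (fun x => id θ (cE K H h x)) = θ ∧ P θ} = if (h : Γ) ∈ K then I + n else I := by
    intro h
    by_cases hh : (h : Γ) ∈ K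
    · rw [if_pos hh, ← hall]
      refine Nat.card_congr (Equiv.subtypeEquivRight fun θ => and_congr_right fun hθ => ?_)
      exact and_iff_right (inner_fix hθ h hh)
    · rw [if_neg hh, hI]
      refine Nat.card_congr (Equiv.subtypeEquivRight fun θ => and_congr_right fun hθ => ?_)
      constructor
      · rintro ⟨h3, h4⟩
        exact ⟨h4, stF_top hidx hθ hh h3⟩
      · rintro ⟨h3, h4⟩
        exact ⟨h4 h, h3⟩
  rw [Finset.sum_congr rfl fun h _ => h2 h] at h1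
  have h3 : ∑ h : H, (if (h : Γ) ∈ K then I + n else I) =
      Nat.card H * I + Nat.card ↥(H ⊓ K) * n := by
    have e1 : ∀ h : H, (if (h : Γ) ∈ K then I + n else I) = I + if (h : Γ) ∈ K then n else 0 := by
      intro h
      split_ifs <;> rfl
    rw [Finset.sum_congr rfl fun h _ => e1 h, Finset.sum_add_distrib, Finset.sum_const,
      Finset.card_univ, smul_eq_mul, ← Nat.card_eq_fintype_card, ← Finset.sum_filter,
      Finset.sum_const, smul_eq_mul]
    congr 2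
    rw [← Fintype.card_subtype, ← Nat.card_eq_fintype_card]
    exact Nat.card_congr
      { toFun := fun x => ⟨x.1.1, x.1.2, x.2⟩
        invFun := fun x => ⟨⟨x.1, x.2.1⟩, x.2.2⟩
        left_inv := fun _ => rfl
        right_inv := fun _ => rfl }
  rw [h3, hidx] at h1
  have hpos : 0 < Nat.card ↥(H ⊓ K) := Nat.card_pos
  apply Nat.eq_of_mul_eq_mul_left hpos
  nlinarith [h1]

/-- the number of the orbits for a subgroup of `K` -/
theorem NO_le (hHK : H ≤ K) {P : (↥(H ⊓ K) → ℂ) → Prop} (hP : InvP K H P) :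
    NO K H P id = Nat.card {θ : ↥(H ⊓ K) → ℂ // IsIrrChar θ ∧ P θ} := by
  have : Fintype H := Fintype.ofFinite H
  have h1 := burn_NO (K := K) (H := H) hP (v := id) (fun θ h => h) (fun θ _ h => h)
    (fun h θ => rfl)
  have h2 : ∀ h : H, Nat.card {θ : ↥(H ⊓ K) → ℂ // IsIrrChar θ ∧
      (fun x => id θ (cE K H h x)) = θ ∧ P θ} =
      Nat.card {θ : ↥(H ⊓ K) → ℂ // IsIrrChar θ ∧ P θ} := by
    intro h
    refine Nat.card_congr (Equiv.subtypeEquivRight fun θ => and_congr_right fun hθ => ?_)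
    exact and_iff_right (inner_fix hθ h (hHK h.2))
  rw [Finset.sum_congr rfl fun h _ => h2 h, Finset.sum_const, Finset.card_univ, smul_eq_mul,
    ← Nat.card_eq_fintype_card] at h1
  exact (Nat.eq_of_mul_eq_mul_left Nat.card_pos h1).symm

/-- the isomorphism -/
def eM (K H : Subgroup Γ) : ↥(K.subgroupOf H) ≃* ↥(H ⊓ K) where
  toFun x := ⟨x.1.1, x.1.2, x.2⟩
  invFun x := ⟨⟨x.1, x.2.1⟩, x.2.2⟩
  left_inv _ := rfl
  right_inv _ := rfl
  map_mul' _ _ := rfl

/-- **orbits and characters which vanish outside `K`** -/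
theorem van_count (hC : S_CLP) {p : ℕ} [hp : Fact p.Prime]
    (hidx : Nat.card H = p * Nat.card ↥(H ⊓ K)) {P : (H → ℂ) → Prop}
    {Q : (↥(H ⊓ K) → ℂ) → Prop} (hQ : InvP K H Q)
    (hPQ : ∀ [Fintype H] [Fintype ↥(K.subgroupOf H)] (χ : H → ℂ) (θ : ↥(H ⊓ K) → ℂ), IsIrrChar χ →
      IsIrrChar θ → mult (K.subgroupOf H) χ (fun x => θ (eM K H x)) ≠ 0 → (P χ ↔ Q θ)) :
    ∃ i : ℕ, Nat.card {χ : H → ℂ // IsIrrChar χ ∧ P χ} =
        Nat.card {χ : H → ℂ // IsIrrChar χ ∧ P χ ∧ ∀ x : H, (x : Γ) ∉ K → χ x = 0} + p * i ∧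
      NO K H Q id =
        Nat.card {χ : H → ℂ // IsIrrChar χ ∧ P χ ∧ ∀ x : H, (x : Γ) ∉ K → χ x = 0} + i := by
  have : Fintype H := Fintype.ofFinite H
  have : Fintype ↥(K.subgroupOf H) := Fintype.ofFinite _
  have hcM : Nat.card (K.subgroupOf H) = Nat.card ↥(H ⊓ K) :=
    Nat.card_congr (eM K H).toEquiv
  -- transport
  let T : (↥(K.subgroupOf H) → ℂ) ≃ (↥(H ⊓ K) → ℂ) :=
    Equiv.arrowCongr (eM K H).toEquiv (Equiv.refl ℂ)
  have hT : ∀ θ x, T θ (eM K H x) = θ x := fun _ _ => rfl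
  have hT' : ∀ θ x, T θ x = θ ((eM K H).symm x) := fun _ _ => rfl
  have hirr : ∀ θ, IsIrrChar (T θ) ↔ IsIrrChar θ := by
    intro θ
    constructor
    · intro h
      exact irr_comp (eM K H) h
    · exact fun h => irr_comp (eM K H).symm h
  have hfix : ∀ (θ : ↥(K.subgroupOf H) → ℂ) (g : H), (fun x => T θ (cE K H g x)) = T θ ↔
      cj (K.subgroupOf H) g θ = θ := by
    intro θ g
    have h1 : T (cj (K.subgroupOf H) g θ) = fun x => T θ (cE K H g x) := by
      funext x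
      rw [hT', hT']
      unfold cj
      congr 1
    rw [← h1]
    exact T.injective.eq_iff
  obtain ⟨h1, h2⟩ := hC p H (K.subgroupOf H) (by rw [hidx, hcM]) P (fun θ => Q (T θ))
    (fun χ θ hχ hθ hm => hPQ χ (T θ) hχ ((hirr θ).2 hθ) hm)
  have hv : ∀ χ : H → ℂ, (∀ x, x ∉ K.subgroupOf H → χ x = 0) ↔
      ∀ x : H, (x : Γ) ∉ K → χ x = 0 := fun χ => Iff.rfl
  have e1 : Nat.card {θ : ↥(K.subgroupOf H) → ℂ // IsIrrChar θ ∧ Q (T θ) ∧
      ∀ x : H, cj (K.subgroupOf H) x θ = θ} =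
      Nat.card {θ : ↥(H ⊓ K) → ℂ // IsIrrChar θ ∧ Q θ ∧
        ∀ g : H, (fun x => θ (cE K H g x)) = θ} := by
    refine Nat.card_congr (Equiv.subtypeEquiv T fun θ => ?_)
    rw [hirr]
    refine and_congr_right fun _ => and_congr_right fun _ => forall_congr' fun g => ?_
    exact (hfix θ g).symm
  have e2 : Nat.card {θ : ↥(K.subgroupOf H) → ℂ // IsIrrChar θ ∧ Q (T θ) ∧
      ¬ ∀ x : H, cj (K.subgroupOf H) x θ = θ} =
      Nat.card {θ : ↥(H ⊓ K) → ℂ // IsIrrChar θ ∧ Q θ ∧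
        ¬ ∀ g : H, (fun x => θ (cE K H g x)) = θ} := by
    refine Nat.card_congr (Equiv.subtypeEquiv T fun θ => ?_)
    rw [hirr]
    refine and_congr_right fun _ => and_congr_right fun _ => not_congr (forall_congr' fun g => ?_)
    exact (hfix θ g).symm
  rw [e1] at h1
  rw [e2] at h2
  have h3 := NO_count hidx hQ
  rw [← h2] at h3
  refine ⟨_, h1, ?_⟩
  apply Nat.eq_of_mul_eq_mul_left hp.out.pos
  rw [h3, mul_add, add_comm]
  rfl

end

end Pool.Agent.Q18.OR
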